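import Mathlib

set_option autoImplicit false

namespace Pool.Agent.Results.MP_046d9d_an.ComplexRange

/-- The norm of the `k`-homogeneous polynomial `x ↦ A (x, …, x)`: supremum over the unit ball. -/
noncomputable def polyNorm {X : Type} [NormedAddCommGroup X] [NormedSpace ℂ X] {k : ℕ}
    (A : ContinuousMultilinearMap ℂ (fun _ : Fin k => X) X) : ℝ :=
  sSup {r : ℝ | ∃ x : X, ‖x‖ ≤ 1 ∧ r = ‖A (fun _ => x)‖}

/-- The numerical radius of the `k`-homogeneous polynomial `x ↦ A (x, …, x)`. -/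
noncomputable def polyRadius {X : Type} [NormedAddCommGroup X] [NormedSpace ℂ X] {k : ℕ}
    (A : ContinuousMultilinearMap ℂ (fun _ : Fin k => X) X) : ℝ :=
  sSup {r : ℝ | ∃ (x : X) (f : X →L[ℂ] ℂ), ‖x‖ = 1 ∧ ‖f‖ = 1 ∧ f x = 1 ∧
    r = ‖f (A (fun _ => x))‖}

/-- The polynomial numerical index of order `k` of the complex normed space `X`. -/
noncomputable def polyIndex (k : ℕ) (X : Type) [NormedAddCommGroup X] [NormedSpace ℂ X] : ℝ :=
  sInf {r : ℝ | ∃ A : ContinuousMultilinearMap ℂ (fun _ : Fin k => X) X,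
    polyNorm A = 1 ∧ r = polyRadius A}

/-- The set of all values of the polynomial numerical index of order `k` on nonzero complex
Banach spaces. -/
def complexRange (k : ℕ) : Set ℝ :=
  {r : ℝ | ∃ (X : Type) (_ : NormedAddCommGroup X) (_ : NormedSpace ℂ X),
    CompleteSpace X ∧ Nontrivial X ∧ r = polyIndex k X}

section General

variable {X : Type} [NormedAddCommGroup X] [NormedSpace ℂ X] {k : ℕ}

lemma apply_le (A : ContinuousMultilinearMap ℂ (fun _ : Fin k => X) X) (x : X) :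
    ‖A (fun _ => x)‖ ≤ ‖A‖ * ‖x‖ ^ k := by
  calc ‖A (fun _ => x)‖ ≤ ‖A‖ * ∏ _i : Fin k, ‖x‖ := A.le_opNorm _
    _ = ‖A‖ * ‖x‖ ^ k := by simp

lemma polyNorm_bdd (A : ContinuousMultilinearMap ℂ (fun _ : Fin k => X) X) :
    BddAbove {r : ℝ | ∃ x : X, ‖x‖ ≤ 1 ∧ r = ‖A (fun _ => x)‖} := by
  refine ⟨‖A‖, ?_⟩
  rintro _ ⟨x, hx, rfl⟩
  calc ‖A (fun _ => x)‖ ≤ ‖A‖ * ‖x‖ ^ k := apply_le A x
    _ ≤ ‖A‖ * 1 := by
        gcongr
        exact pow_le_one₀ (norm_nonneg _) hx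
    _ = ‖A‖ := mul_one _

lemma le_polyNorm (A : ContinuousMultilinearMap ℂ (fun _ : Fin k => X) X) (x : X)
    (hx : ‖x‖ ≤ 1) : ‖A (fun _ => x)‖ ≤ polyNorm A :=
  le_csSup (polyNorm_bdd A) ⟨x, hx, rfl⟩

lemma polyNorm_le (A : ContinuousMultilinearMap ℂ (fun _ : Fin k => X) X) (c : ℝ)
    (h : ∀ x : X, ‖x‖ ≤ 1 → ‖A (fun _ => x)‖ ≤ c) : polyNorm A ≤ c := by
  refine csSup_le ⟨‖A (fun _ => (0 : X))‖, 0, by simp, rfl⟩ ?_
  rintro _ ⟨x, hx, rfl⟩
  exact h x hx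

lemma polyNorm_nonneg (A : ContinuousMultilinearMap ℂ (fun _ : Fin k => X) X) :
    0 ≤ polyNorm A := (norm_nonneg _).trans (le_polyNorm A 0 (by simp))

lemma polyRadius_bdd (A : ContinuousMultilinearMap ℂ (fun _ : Fin k => X) X) :
    BddAbove {r : ℝ | ∃ (x : X) (f : X →L[ℂ] ℂ), ‖x‖ = 1 ∧ ‖f‖ = 1 ∧ f x = 1 ∧
      r = ‖f (A (fun _ => x))‖} := by
  refine ⟨polyNorm A, ?_⟩
  rintro _ ⟨x, f, hx, hf, -, rfl⟩
  calc ‖f (A (fun _ => x))‖ ≤ ‖f‖ * ‖A (fun _ => x)‖ := f.le_opNorm _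
    _ = ‖A (fun _ => x)‖ := by rw [hf, one_mul]
    _ ≤ polyNorm A := le_polyNorm A x hx.le

lemma le_polyRadius (A : ContinuousMultilinearMap ℂ (fun _ : Fin k => X) X) (x : X)
    (f : X →L[ℂ] ℂ) (hx : ‖x‖ = 1) (hf : ‖f‖ = 1) (hfx : f x = 1) :
    ‖f (A (fun _ => x))‖ ≤ polyRadius A :=
  le_csSup (polyRadius_bdd A) ⟨x, f, hx, hf, hfx, rfl⟩

lemma polyRadius_nonneg (A : ContinuousMultilinearMap ℂ (fun _ : Fin k => X) X) :
    0 ≤ polyRadius A := by
  apply Real.sSup_nonneg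
  rintro _ ⟨x, f, -, -, -, rfl⟩
  exact norm_nonneg _

lemma polyRadius_le (A : ContinuousMultilinearMap ℂ (fun _ : Fin k => X) X) (c : ℝ) (hc : 0 ≤ c)
    (h : ∀ (x : X) (f : X →L[ℂ] ℂ), ‖x‖ = 1 → ‖f‖ = 1 → f x = 1 →
      ‖f (A (fun _ => x))‖ ≤ c) : polyRadius A ≤ c := by
  apply Real.sSup_le _ hc
  rintro _ ⟨x, f, hx, hf, hfx, rfl⟩
  exact h x f hx hf hfx

lemma polyRadius_le_polyNorm (A : ContinuousMultilinearMap ℂ (fun _ : Fin k => X) X) :
    polyRadius A ≤ polyNorm A := by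
  apply polyRadius_le A _ (polyNorm_nonneg A)
  intro x f hx hf _
  calc ‖f (A (fun _ => x))‖ ≤ ‖f‖ * ‖A (fun _ => x)‖ := f.le_opNorm _
    _ = ‖A (fun _ => x)‖ := by rw [hf, one_mul]
    _ ≤ polyNorm A := le_polyNorm A x hx.le

lemma polyNorm_smul (c : ℝ) (hc : 0 ≤ c)
    (A : ContinuousMultilinearMap ℂ (fun _ : Fin k => X) X) :
    polyNorm ((c : ℂ) • A) = c * polyNorm A := by
  unfold polyNorm
  rw [← smul_eq_mul, ← Real.sSup_smul_of_nonneg hc]
  congr 1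
  ext r
  constructor
  · rintro ⟨x, hx, rfl⟩
    refine ⟨‖A (fun _ => x)‖, ⟨x, hx, rfl⟩, ?_⟩
    simp only [smul_apply, norm_smul, Complex.norm_real, Real.norm_of_nonneg hc, smul_eq_mul]
  · rintro ⟨_, ⟨x, hx, rfl⟩, rfl⟩
    refine ⟨x, hx, ?_⟩
    simp only [smul_apply, norm_smul, Complex.norm_real, Real.norm_of_nonneg hc, smul_eq_mul]

lemma polyRadius_smul (c : ℝ) (hc : 0 ≤ c)
    (A : ContinuousMultilinearMap ℂ (fun _ : Fin k => X) X) :
    polyRadius ((c : ℂ) • A) = c * polyRadius A := by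
  unfold polyRadius
  rw [← smul_eq_mul, ← Real.sSup_smul_of_nonneg hc]
  congr 1
  ext r
  constructor
  · rintro ⟨x, f, hx, hf, hfx, rfl⟩
    refine ⟨‖f (A (fun _ => x))‖, ⟨x, f, hx, hf, hfx, rfl⟩, ?_⟩
    simp only [smul_apply, map_smul, Complex.norm_real, Real.norm_of_nonneg hc,
      smul_eq_mul, norm_mul]
  · rintro ⟨_, ⟨x, f, hx, hf, hfx, rfl⟩, rfl⟩
    refine ⟨x, f, hx, hf, hfx, ?_⟩
    simp only [smul_apply, map_smul, Complex.norm_real, Real.norm_of_nonneg hc,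
      smul_eq_mul, norm_mul]

lemma index_set_bdd : BddBelow {r : ℝ | ∃ A : ContinuousMultilinearMap ℂ (fun _ : Fin k => X) X,
    polyNorm A = 1 ∧ r = polyRadius A} := by
  refine ⟨0, ?_⟩
  rintro _ ⟨A, -, rfl⟩
  exact polyRadius_nonneg A

/-- The index is a lower bound for the ratio radius / norm. -/
lemma index_mul_le (A : ContinuousMultilinearMap ℂ (fun _ : Fin k => X) X) :
    polyIndex k X * polyNorm A ≤ polyRadius A := by
  rcases (polyNorm_nonneg A).eq_or_lt with h | h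
  · rw [← h, mul_zero]; exact polyRadius_nonneg A
  have h1 : polyNorm (((polyNorm A)⁻¹ : ℝ) • A : ContinuousMultilinearMap ℂ (fun _ : Fin k => X) X)
      = polyNorm ((((polyNorm A)⁻¹ : ℝ) : ℂ) • A) := by
    congr 1
  have h2 : polyNorm ((((polyNorm A)⁻¹ : ℝ) : ℂ) • A) = 1 := by
    rw [polyNorm_smul _ (inv_nonneg.2 h.le), inv_mul_cancel₀ h.ne']
  have h3 : polyIndex k X ≤ polyRadius ((((polyNorm A)⁻¹ : ℝ) : ℂ) • A) :=
    csInf_le index_set_bdd ⟨_, h2, rfl⟩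
  rw [polyRadius_smul _ (inv_nonneg.2 h.le), inv_mul_eq_div, le_div_iff₀ h] at h3
  exact h3

lemma index_nonneg : 0 ≤ polyIndex k X := by
  apply Real.sInf_nonneg
  rintro _ ⟨A, -, rfl⟩
  exact polyRadius_nonneg A

/-- On a nonzero space there is a polynomial of norm one. -/
lemma exists_norm_one [Nontrivial X] (k : ℕ) :
    ∃ A : ContinuousMultilinearMap ℂ (fun _ : Fin k => X) X, polyNorm A = 1 := by
  obtain ⟨u, hu⟩ : ∃ u : X, ‖u‖ = 1 := by
    obtain ⟨v, hv⟩ := exists_ne (0 : X)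
    refine ⟨((‖v‖⁻¹ : ℝ) : ℂ) • v, ?_⟩
    rw [norm_smul, Complex.norm_real, norm_inv, norm_norm, inv_mul_cancel₀ (norm_ne_zero_iff.2 hv)]
  obtain ⟨g, hg, hgu⟩ := exists_dual_vector ℂ u (by rw [hu]; norm_num)
  rw [hu] at hgu
  let M : ContinuousMultilinearMap ℂ (fun _ : Fin k => X) ℂ :=
    (ContinuousMultilinearMap.mkPiAlgebra ℂ (Fin k) ℂ).compContinuousLinearMap (fun _ => g)
  let A : ContinuousMultilinearMap ℂ (fun _ : Fin k => X) X :=
    (ContinuousLinearMap.smulRight (1 : ℂ →L[ℂ] ℂ) u).compContinuousMultilinearMap M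
  have hA : ∀ x : X, A (fun _ => x) = (g x) ^ k • u := by
    intro x
    simp [A, M]
  refine ⟨A, le_antisymm (polyNorm_le A 1 ?_) ?_⟩
  · intro x hx
    rw [hA, norm_smul, hu, mul_one, norm_pow]
    apply pow_le_one₀ (norm_nonneg _)
    calc ‖g x‖ ≤ ‖g‖ * ‖x‖ := g.le_opNorm x
      _ ≤ 1 := by rw [hg, one_mul]; exact hx
  · have := le_polyNorm A u hu.le
    rw [hA, hgu, norm_smul, hu] at this
    simpa using this

lemma index_le_one [Nontrivial X] (k : ℕ) : polyIndex k X ≤ 1 := by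
  obtain ⟨A, hA⟩ := exists_norm_one (X := X) k
  have h := index_mul_le A
  rw [hA, mul_one] at h
  exact h.trans (hA ▸ polyRadius_le_polyNorm A)

lemma le_index [Nontrivial X] (c : ℝ)
    (h : ∀ A : ContinuousMultilinearMap ℂ (fun _ : Fin k => X) X,
      c * polyNorm A ≤ polyRadius A) : c ≤ polyIndex k X := by
  obtain ⟨A₀, hA₀⟩ := exists_norm_one (X := X) k
  refine le_csInf ⟨polyRadius A₀, A₀, hA₀, rfl⟩ ?_
  rintro _ ⟨A, hA, rfl⟩
  have := h A
  rwa [hA, mul_one] at this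

/-- values of a supporting functional at points that need not be normalised -/
lemma support_le (A : ContinuousMultilinearMap ℂ (fun _ : Fin k => X) X) (y : X)
    (f : X →L[ℂ] ℂ) (hf : ‖f‖ ≤ 1) (hfy : f y = ‖y‖) (hk : k ≠ 0) :
    ‖f (A (fun _ => y))‖ ≤ polyRadius A * ‖y‖ ^ k := by
  by_cases hy : y = 0
  · subst hy
    obtain ⟨n, rfl⟩ := Nat.exists_eq_succ_of_ne_zero hk
    have : A (fun _ => (0 : X)) = 0 := A.map_coord_zero (0 : Fin (n + 1)) rfl
    rw [this]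
    simp
  have hn : 0 < ‖y‖ := norm_pos_iff.2 hy
  have hnC : (‖y‖ : ℂ) ≠ 0 := by exact_mod_cast hn.ne'
  set u : X := (‖y‖⁻¹ : ℂ) • y with hu
  have hyu : y = (‖y‖ : ℂ) • u := by
    rw [hu, smul_smul, mul_inv_cancel₀ hnC, one_smul]
  have hun : ‖u‖ = 1 := by
    rw [hu, norm_smul, norm_inv, Complex.norm_real, norm_norm, inv_mul_cancel₀ hn.ne']
  have hfu : f u = 1 := by
    rw [hu, map_smul, hfy, smul_eq_mul, inv_mul_cancel₀ hnC]
  have hf1 : ‖f‖ = 1 := by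
    apply le_antisymm hf
    have := f.le_opNorm u
    rw [hfu, hun, mul_one] at this
    simpa using this
  have h1 := le_polyRadius A u f hun hf1 hfu
  have h2 : A (fun _ => y) = ((‖y‖ : ℂ) ^ k) • A (fun _ => u) := by
    conv_lhs => rw [hyu]
    rw [A.map_smul_univ (fun _ => (‖y‖ : ℂ)) (fun _ => u)]
    simp
  rw [h2, map_smul, norm_smul, norm_pow, Complex.norm_real, norm_norm, mul_comm]
  gcongr

/-- One Euler step: the norm grows at most at the rate given by the numerical radius, up to a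
quadratic error. -/
lemma euler_step (A : ContinuousMultilinearMap ℂ (fun _ : Fin k => X) X) (hk : k ≠ 0) :
    ∃ C : ℝ, 0 ≤ C ∧ ∀ (x : X) (ρ : ℝ) (τ : ℂ), ‖x‖ ≤ ρ → ρ ≤ 2 → ‖τ‖ ≤ 1 → ‖τ‖ * ‖A‖ * 2 ^ k ≤ 1 →
      ‖x + τ • A (fun _ => x)‖ ≤ ρ + ‖τ‖ * (polyRadius A * ρ ^ k) + C * ‖τ‖ ^ 2 := by
  set M := ‖A‖ * 2 ^ k with hM
  have hM0 : 0 ≤ M := by positivity
  refine ⟨‖A‖ * k * 3 ^ (k - 1) * M + polyRadius A * (k * 3 ^ (k - 1) * M), ?_, ?_⟩
  · have := polyRadius_nonneg A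
    positivity
  intro x ρ τ hx hρ hτ hτM
  have hR := polyRadius_nonneg A
  have hρ0 : 0 ≤ ρ := (norm_nonneg x).trans hx
  have hAx : ‖A (fun _ => x)‖ ≤ M := by
    calc ‖A (fun _ => x)‖ ≤ ‖A‖ * ‖x‖ ^ k := apply_le A x
      _ ≤ ‖A‖ * 2 ^ k := by
          gcongr
          exact hx.trans hρ
  set y : X := x + τ • A (fun _ => x) with hy
  have hyx : ‖x - y‖ ≤ ‖τ‖ * M := by
    rw [hy, sub_add_cancel_left, norm_neg, norm_smul]
    gcongr
  have hyn : ‖y‖ ≤ ρ + ‖τ‖ * M := by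
    calc ‖y‖ = ‖x - (x - y)‖ := by congr 1; abel
      _ ≤ ‖x‖ + ‖x - y‖ := norm_sub_le _ _
      _ ≤ ρ + ‖τ‖ * M := add_le_add hx hyx
  have hτM' : ‖τ‖ * M ≤ 1 := by rw [hM, ← mul_assoc]; exact hτM
  have hy3 : ‖y‖ ≤ 3 := by linarith
  by_cases hy0 : y = 0
  · rw [hy0, norm_zero]
    positivity
  obtain ⟨f, hf, hfy⟩ := exists_dual_vector ℂ y (norm_ne_zero_iff.2 hy0)
  have h1 : (‖y‖ : ℂ) = f x + τ * f (A (fun _ => x) - A (fun _ => y)) + τ * f (A (fun _ => y)) := by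
    have e1 : y = x + τ • (A (fun _ => x) - A (fun _ => y)) + τ • A (fun _ => y) := by
      rw [smul_sub, hy]; abel
    calc (‖y‖ : ℂ) = f y := hfy.symm
      _ = f (x + τ • (A (fun _ => x) - A (fun _ => y)) + τ • A (fun _ => y)) := by rw [← e1]
      _ = _ := by simp only [map_add, map_smul, smul_eq_mul]
  have h2 : ‖f x‖ ≤ ρ := by
    calc ‖f x‖ ≤ ‖f‖ * ‖x‖ := f.le_opNorm x
      _ ≤ ρ := by rw [hf, one_mul]; exact hx
  have h3 : ‖f (A (fun _ => x) - A (fun _ => y))‖ ≤ ‖A‖ * k * 3 ^ (k - 1) * (‖τ‖ * M) := by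
    have hne : Nonempty (Fin k) := ⟨⟨0, Nat.pos_of_ne_zero hk⟩⟩
    have h31 := A.norm_image_sub_le (fun _ => x) (fun _ => y)
    have h32 : ‖(fun _ : Fin k => x)‖ = ‖x‖ := pi_norm_const x
    have h33 : ‖(fun _ : Fin k => y)‖ = ‖y‖ := pi_norm_const y
    have h34 : ‖(fun _ : Fin k => x) - (fun _ : Fin k => y)‖ = ‖x - y‖ := pi_norm_const (x - y)
    rw [h32, h33, h34, Fintype.card_fin] at h31
    calc ‖f (A (fun _ => x) - A (fun _ => y))‖ ≤ ‖f‖ * ‖A (fun _ => x) - A (fun _ => y)‖ :=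
          f.le_opNorm _
      _ = ‖A (fun _ => x) - A (fun _ => y)‖ := by rw [hf, one_mul]
      _ ≤ ‖A‖ * k * max ‖x‖ ‖y‖ ^ (k - 1) * ‖x - y‖ := h31
      _ ≤ ‖A‖ * k * 3 ^ (k - 1) * (‖τ‖ * M) := by
          gcongr
          exact max_le (by linarith) hy3
  have h4 : ‖f (A (fun _ => y))‖ ≤ polyRadius A * ‖y‖ ^ k := support_le A y f hf.le hfy hk
  have h5 : ‖y‖ ^ k ≤ ρ ^ k + k * 3 ^ (k - 1) * (‖τ‖ * M) := by
    have hb : 0 ≤ ‖τ‖ * M := by positivity
    calc ‖y‖ ^ k ≤ (ρ + ‖τ‖ * M) ^ k := by gcongr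
      _ ≤ ρ ^ k + k * 3 ^ (k - 1) * (‖τ‖ * M) := by
          have h51 : (ρ + ‖τ‖ * M) ^ k - ρ ^ k ≤ k * (ρ + ‖τ‖ * M) ^ (k - 1) * (‖τ‖ * M) := by
            have h511 := abs_pow_sub_pow_le (ρ + ‖τ‖ * M) ρ k
            have h512 : max |ρ + ‖τ‖ * M| |ρ| = ρ + ‖τ‖ * M := by
              rw [abs_of_nonneg (by positivity), abs_of_nonneg hρ0]
              exact max_eq_left (by linarith)
            rw [h512, add_sub_cancel_left, abs_of_nonneg hb] at h511
            calc (ρ + ‖τ‖ * M) ^ k - ρ ^ k ≤ |(ρ + ‖τ‖ * M) ^ k - ρ ^ k| := le_abs_self _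
              _ ≤ _ := h511
              _ = _ := by ring
          have h52 : (k : ℝ) * (ρ + ‖τ‖ * M) ^ (k - 1) * (‖τ‖ * M) ≤
              k * 3 ^ (k - 1) * (‖τ‖ * M) := by
            gcongr
            linarith
          linarith
  have h6 : ‖y‖ ≤ ‖f x‖ + ‖τ‖ * ‖f (A (fun _ => x) - A (fun _ => y))‖ +
      ‖τ‖ * ‖f (A (fun _ => y))‖ := by
    have : ‖y‖ = ‖(‖y‖ : ℂ)‖ := by rw [Complex.norm_real, norm_norm]
    rw [this, h1]
    calc _ ≤ ‖f x + τ * f (A (fun _ => x) - A (fun _ => y))‖ + ‖τ * f (A (fun _ => y))‖ :=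
          norm_add_le _ _
      _ ≤ ‖f x‖ + ‖τ * f (A (fun _ => x) - A (fun _ => y))‖ + ‖τ * f (A (fun _ => y))‖ := by
          gcongr
          exact norm_add_le _ _
      _ = _ := by rw [norm_mul, norm_mul]
  calc ‖y‖ ≤ ‖f x‖ + ‖τ‖ * ‖f (A (fun _ => x) - A (fun _ => y))‖ +
      ‖τ‖ * ‖f (A (fun _ => y))‖ := h6
    _ ≤ ρ + ‖τ‖ * (‖A‖ * k * 3 ^ (k - 1) * (‖τ‖ * M)) +
      ‖τ‖ * (polyRadius A * (ρ ^ k + k * 3 ^ (k - 1) * (‖τ‖ * M))) := by
        gcongr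
        exact h4.trans (by gcongr)
    _ = _ := by ring

/-- Euler polygon for the flow of the vector field `z A`, as a function of the complex time `z`. -/
noncomputable def polygon (A : ContinuousMultilinearMap ℂ (fun _ : Fin k => X) X) (N : ℕ)
    (x₀ : X) : ℕ → ℂ → X
  | 0 => fun _ => x₀
  | j + 1 => fun z => polygon A N x₀ j z + (z / N) • A (fun _ => polygon A N x₀ j z)

lemma differentiable_diag (A : ContinuousMultilinearMap ℂ (fun _ : Fin k => X) X) :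
    Differentiable ℂ (fun v : X => A (fun _ => v)) := by
  have h1 : Differentiable ℂ A := fun v => (A.hasFDerivAt v).differentiableAt
  exact h1.comp (differentiable_pi.2 fun _ => differentiable_id)

lemma polygon_diff (A : ContinuousMultilinearMap ℂ (fun _ : Fin k => X) X) (N : ℕ) (x₀ : X)
    (j : ℕ) : Differentiable ℂ (polygon A N x₀ j) := by
  induction j with
  | zero => exact differentiable_const _
  | succ j ih =>
    have h1 : Differentiable ℂ (fun z : ℂ => z / (N : ℂ)) := differentiable_id.div_const _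
    exact ih.add (h1.smul ((differentiable_diag A).comp ih))

lemma polygon_zero (A : ContinuousMultilinearMap ℂ (fun _ : Fin k => X) X) (N : ℕ) (x₀ : X)
    (j : ℕ) : polygon A N x₀ j 0 = x₀ := by
  induction j with
  | zero => rfl
  | succ j ih => simp [polygon, ih]

lemma polygon_deriv (A : ContinuousMultilinearMap ℂ (fun _ : Fin k => X) X) (N : ℕ) (x₀ : X)
    (j : ℕ) : HasDerivAt (polygon A N x₀ j) (((j : ℂ) / N) • A (fun _ => x₀)) 0 := by
  induction j with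
  | zero => simpa [polygon] using hasDerivAt_const (0 : ℂ) x₀
  | succ j ih =>
    have h1 : HasDerivAt (fun z : ℂ => z / (N : ℂ)) (1 / (N : ℂ)) 0 :=
      (hasDerivAt_id (0 : ℂ)).div_const _
    have h2 : DifferentiableAt ℂ (fun z => A (fun _ => polygon A N x₀ j z)) 0 :=
      ((differentiable_diag A).comp (polygon_diff A N x₀ j)) 0
    have h3 := ih.add (h1.smul h2.hasDerivAt)
    have h4 : ((j : ℂ) / N) • A (fun _ => x₀) + (((0 : ℂ) / N) • deriv (fun z => A (fun _ =>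
        polygon A N x₀ j z)) 0 + (1 / (N : ℂ)) • A (fun _ => polygon A N x₀ j 0)) =
        (((j + 1 : ℕ) : ℂ) / N) • A (fun _ => x₀) := by
      rw [polygon_zero, zero_div, zero_smul, zero_add, ← add_smul]
      congr 1
      push_cast
      ring
    rw [h4] at h3
    exact h3

/-- Discrete majorant of the norm along the polygon. -/
noncomputable def major (n : ℕ) (w : ℝ) : ℕ → ℝ
  | 0 => 1
  | j + 1 => major n w j + w * major n w j ^ (n + 1)

lemma major_ge_one (n : ℕ) (w : ℝ) (hw : 0 ≤ w) (j : ℕ) : 1 ≤ major n w j := by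
  induction j with
  | zero => exact le_rfl
  | succ j ih =>
    have h : 0 ≤ w * major n w j ^ (n + 1) := by positivity
    change 1 ≤ major n w j + w * major n w j ^ (n + 1)
    linarith

lemma bernoulli_aux (n : ℕ) (hn : n ≠ 0) (y : ℝ) (hy : 0 ≤ y) : (1 + y / n) ^ n * (1 - y) ≤ 1 := by
  have hn' : (n : ℝ) ≠ 0 := by exact_mod_cast hn
  have h1 : (1 + y / n) ^ n ≤ Real.exp y := by
    have h0 : 0 ≤ 1 + y / n := by positivity
    calc (1 + y / n) ^ n ≤ (Real.exp (y / n)) ^ n := by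
          gcongr
          linarith [Real.add_one_le_exp (y / n)]
      _ = Real.exp y := by
          rw [← Real.exp_nat_mul]
          congr 1
          field_simp
  have h2 : 1 - y ≤ Real.exp (-y) := by linarith [Real.add_one_le_exp (-y)]
  by_cases h3 : 0 ≤ 1 - y
  · calc (1 + y / n) ^ n * (1 - y) ≤ Real.exp y * Real.exp (-y) := by gcongr
      _ = 1 := by rw [← Real.exp_add]; simp
  · push Not at h3
    have : (1 + y / n) ^ n * (1 - y) ≤ 0 :=
      mul_nonpos_of_nonneg_of_nonpos (by positivity) h3.le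
    linarith

lemma major_pow (n : ℕ) (hn : n ≠ 0) (w : ℝ) (hw : 0 ≤ w) (j : ℕ) :
    major n w j ^ n * (1 - n * w * j) ≤ 1 := by
  have hn' : (n : ℝ) ≠ 0 := by exact_mod_cast hn
  induction j with
  | zero => simp [major]
  | succ j ih =>
    have hm := major_ge_one n w hw j
    set m := major n w j with hmdef
    have e1 : major n w (j + 1) = m * (1 + (n * w * m ^ n) / n) := by
      change m + w * m ^ (n + 1) = _
      field_simp
      ring
    rw [e1, mul_pow]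
    have hb := bernoulli_aux n hn (n * w * m ^ n) (by positivity)
    have hp : 0 ≤ (1 + (n * w * m ^ n) / n) ^ n := by positivity
    calc m ^ n * (1 + n * w * m ^ n / n) ^ n * (1 - n * w * ((j + 1 : ℕ) : ℝ))
        = (1 + n * w * m ^ n / n) ^ n * (m ^ n * (1 - n * w * j) - n * w * m ^ n) := by
          push_cast; ring
      _ ≤ (1 + n * w * m ^ n / n) ^ n * (1 - n * w * m ^ n) := by gcongr
      _ ≤ 1 := hb

/-- Harris's estimate, in a form free of real powers. -/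
lemma harris_aux {n : ℕ} (hn : n ≠ 0) (A : ContinuousMultilinearMap ℂ (fun _ : Fin (n + 1) => X) X)
    (v' : ℝ) (hv : polyRadius A < v') (x₀ : X) (hx₀ : ‖x₀‖ ≤ 1) :
    ‖A (fun _ => x₀)‖ ^ n ≤ ((n : ℝ) + 1) ^ (n + 1) * v' ^ n := by
  have hv0 : 0 < v' := (polyRadius_nonneg A).trans_lt hv
  obtain ⟨C, hC, hstep⟩ := euler_step A (Nat.succ_ne_zero n)
  set K : ℝ := (n : ℝ) + 1 with hK
  have hKpos : 0 < K := by positivity
  set r : ℝ := 1 / (K * v') with hr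
  have hrpos : 0 < r := by positivity
  -- choose the number of steps
  obtain ⟨N, hN⟩ := exists_nat_gt (max (r * (‖A‖ * 2 ^ (n + 1))) (max r (C * r / (v' - polyRadius A))))
  have hN1 : r * (‖A‖ * 2 ^ (n + 1)) < N := (le_max_left _ _).trans_lt hN
  have hN2 : r < N := ((le_max_left _ _).trans (le_max_right _ _)).trans_lt hN
  have hN3 : C * r / (v' - polyRadius A) < N :=
    ((le_max_right _ _).trans (le_max_right _ _)).trans_lt hN
  have hNpos : (0 : ℝ) < N := hrpos.trans hN2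
  set h : ℝ := r / N with hh
  have hpos : 0 < h := by positivity
  have hh1 : h ≤ 1 := by rw [hh, div_le_one hNpos]; exact hN2.le
  have hh2 : h * ‖A‖ * 2 ^ (n + 1) ≤ 1 := by
    have : h * ‖A‖ * 2 ^ (n + 1) = r * (‖A‖ * 2 ^ (n + 1)) / N := by rw [hh]; ring
    rw [this, div_le_one hNpos]
    exact hN1.le
  have hvv : 0 < v' - polyRadius A := by linarith
  have hh3 : C * h ≤ v' - polyRadius A := by
    rw [div_lt_iff₀ hvv] at hN3
    have : C * h = C * r / N := by rw [hh]; ring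
    rw [this, div_le_iff₀ hNpos]
    linarith
  set w : ℝ := h * v' with hw
  have hw0 : 0 ≤ w := by positivity
  have hwN : (n : ℝ) * w * N = n / K := by
    rw [hw, hh, hr]
    field_simp
  -- the majorant stays below 2
  have hmaj : ∀ j ≤ N, major n w j ^ n ≤ K := by
    intro j hj
    have h1 := major_pow n hn w hw0 j
    have h2 : (1 : ℝ) / K ≤ 1 - n * w * j := by
      have h3 : (n : ℝ) * w * j ≤ n * w * N := by
        have : (j : ℝ) ≤ N := by exact_mod_cast hj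
        gcongr
      rw [hwN] at h3
      have h4 : 1 - (n : ℝ) / K = 1 / K := by
        rw [hK]; field_simp; ring
      linarith
    have h5 : 0 ≤ major n w j ^ n := by
      have := major_ge_one n w hw0 j
      positivity
    have h6 : major n w j ^ n * (1 / K) ≤ 1 := by
      calc major n w j ^ n * (1 / K) ≤ major n w j ^ n * (1 - n * w * j) := by gcongr
        _ ≤ 1 := h1
    rw [mul_one_div, div_le_one hKpos] at h6
    exact h6
  have hK2 : K ≤ 2 ^ n := by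
    have : (n + 1 : ℕ) ≤ 2 ^ n := Nat.lt_two_pow_self
    rw [hK]
    exact_mod_cast this
  have hmaj2 : ∀ j ≤ N, major n w j ≤ 2 := by
    intro j hj
    have h1 := (hmaj j hj).trans hK2
    have h2 := major_ge_one n w hw0 j
    exact le_of_pow_le_pow_left₀ hn (by norm_num) h1
  -- the polygon stays below the majorant
  have hpoly : ∀ j ≤ N, ∀ z : ℂ, ‖z‖ ≤ r → ‖polygon A N x₀ j z‖ ≤ major n w j := by
    intro j
    induction j with
    | zero => intro _ z _; exact hx₀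
    | succ j ih =>
      intro hj z hz
      have hj' : j ≤ N := by omega
      have h1 := ih hj' z hz
      have hτ : ‖z / (N : ℂ)‖ ≤ h := by
        rw [norm_div, Complex.norm_natCast, hh]
        gcongr
      have hm1 := major_ge_one n w hw0 j
      have h2 := hstep (polygon A N x₀ j z) (major n w j) (z / N) h1 (hmaj2 j hj')
        (hτ.trans hh1) (by
          calc ‖z / (N : ℂ)‖ * ‖A‖ * 2 ^ (n + 1) ≤ h * ‖A‖ * 2 ^ (n + 1) := by gcongr
            _ ≤ 1 := hh2)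
      have hR := polyRadius_nonneg A
      calc ‖polygon A N x₀ (j + 1) z‖ = ‖polygon A N x₀ j z + (z / N) • A (fun _ => polygon A N x₀ j z)‖ := rfl
        _ ≤ _ := h2
        _ ≤ major n w j + h * (polyRadius A * major n w j ^ (n + 1)) + C * h ^ 2 := by gcongr
        _ ≤ major n w j + h * (polyRadius A * major n w j ^ (n + 1)) +
            (v' - polyRadius A) * h * major n w j ^ (n + 1) := by
          have h3 : C * h ^ 2 ≤ (v' - polyRadius A) * h := by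
            calc C * h ^ 2 = (C * h) * h := by ring
              _ ≤ (v' - polyRadius A) * h := by gcongr
          have h4 : (1 : ℝ) ≤ major n w j ^ (n + 1) := one_le_pow₀ hm1
          have h5 : 0 ≤ (v' - polyRadius A) * h := by positivity
          nlinarith
        _ = major n w (j + 1) := by
          change _ = major n w j + w * major n w j ^ (n + 1)
          rw [hw]
          ring
  -- Cauchy estimate
  have hder := (polygon_deriv A N x₀ N).deriv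
  have hNC : (N : ℂ) ≠ 0 := by exact_mod_cast hNpos.ne'
  rw [div_self hNC, one_smul] at hder
  have hcauchy := Complex.norm_deriv_le_of_forall_mem_sphere_norm_le hrpos
    (polygon_diff A N x₀ N).diffContOnCl (fun z hz => hpoly N le_rfl z (by
      rw [mem_sphere_zero_iff_norm] at hz; exact hz.le)) (c := 0)
  rw [hder] at hcauchy
  have hfin : ‖A (fun _ => x₀)‖ ^ n ≤ (major n w N / r) ^ n := by gcongr
  calc ‖A (fun _ => x₀)‖ ^ n ≤ (major n w N / r) ^ n := hfin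
    _ = major n w N ^ n / r ^ n := div_pow _ _ _
    _ ≤ K / r ^ n := by
        gcongr
        exact hmaj N le_rfl
    _ = K ^ (n + 1) * v' ^ n := by
        rw [hr, div_pow, one_pow, mul_pow]
        field_simp
        ring

/-- Harris's theorem: for `k = n + 1 ≥ 2`, `‖P‖ ^ n ≤ k ^ k * v(P) ^ n`. -/
lemma harris {n : ℕ} (hn : n ≠ 0) (A : ContinuousMultilinearMap ℂ (fun _ : Fin (n + 1) => X) X) :
    polyNorm A ^ n ≤ ((n : ℝ) + 1) ^ (n + 1) * polyRadius A ^ n := by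
  have h1 : ∀ x₀ : X, ‖x₀‖ ≤ 1 →
      ‖A (fun _ => x₀)‖ ^ n ≤ ((n : ℝ) + 1) ^ (n + 1) * polyRadius A ^ n := by
    intro x₀ hx₀
    have hc : Filter.Tendsto (fun v' : ℝ => ((n : ℝ) + 1) ^ (n + 1) * v' ^ n)
        (nhdsWithin (polyRadius A) (Set.Ioi (polyRadius A)))
        (nhds (((n : ℝ) + 1) ^ (n + 1) * polyRadius A ^ n)) := by
      have : Continuous (fun v' : ℝ => ((n : ℝ) + 1) ^ (n + 1) * v' ^ n) := by fun_prop
      exact (this.tendsto _).mono_left nhdsWithin_le_nhds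
    apply ge_of_tendsto hc
    filter_upwards [self_mem_nhdsWithin] with v' hv'
    exact harris_aux hn A v' hv' x₀ hx₀
  obtain h0 | h0 := (polyNorm_nonneg A).eq_or_lt
  · rw [← h0, zero_pow hn]
    have := polyRadius_nonneg A
    positivity
  -- approximate the supremum
  by_contra hcon
  push Not at hcon
  set c := ((n : ℝ) + 1) ^ (n + 1) * polyRadius A ^ n with hc
  have hc0 : 0 ≤ c := by
    have := polyRadius_nonneg A
    positivity
  have hroot : c ^ ((1 : ℝ) / n) < polyNorm A := by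
    have hn' : (n : ℝ) ≠ 0 := by exact_mod_cast hn
    have : (c ^ ((1 : ℝ) / n)) ^ n < polyNorm A ^ n := by
      rw [← Real.rpow_natCast, ← Real.rpow_mul hc0, one_div_mul_cancel hn', Real.rpow_one]
      exact hcon
    exact lt_of_pow_lt_pow_left₀ n h0.le this
  obtain ⟨_, ⟨x, hx, rfl⟩, hlt⟩ := exists_lt_of_lt_csSup
    (⟨‖A (fun _ => (0 : X))‖, 0, by simp, rfl⟩ :
      {r : ℝ | ∃ x : X, ‖x‖ ≤ 1 ∧ r = ‖A (fun _ => x)‖}.Nonempty) hroot
  have h2 := h1 x hx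
  have hn' : (n : ℝ) ≠ 0 := by exact_mod_cast hn
  have h3 : (c ^ ((1 : ℝ) / n)) ^ n < ‖A (fun _ => x)‖ ^ n :=
    pow_lt_pow_left₀ hlt (by positivity) hn
  rw [← Real.rpow_natCast, ← Real.rpow_mul hc0, one_div_mul_cancel hn', Real.rpow_one] at h3
  linarith

/-- The lower bound for the index. -/
lemma index_ge [Nontrivial X] {n : ℕ} (hn : n ≠ 0) (c : ℝ) (hc : 0 ≤ c)
    (hcn : c ^ n * ((n : ℝ) + 1) ^ (n + 1) = 1) : c ≤ polyIndex (n + 1) X := by
  apply le_index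
  intro A
  have h := harris hn A
  have hR := polyRadius_nonneg A
  have h2 : (c * polyNorm A) ^ n ≤ polyRadius A ^ n := by
    rw [mul_pow]
    calc c ^ n * polyNorm A ^ n ≤ c ^ n * (((n : ℝ) + 1) ^ (n + 1) * polyRadius A ^ n) := by
          gcongr
      _ = (c ^ n * ((n : ℝ) + 1) ^ (n + 1)) * polyRadius A ^ n := by ring
      _ = polyRadius A ^ n := by rw [hcn, one_mul]
  exact le_of_pow_le_pow_left₀ hn hR h2

end General

section Compare

variable {X Y : Type} [NormedAddCommGroup X] [NormedSpace ℂ X] [NormedAddCommGroup Y]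
  [NormedSpace ℂ Y]

/-- Two spaces that are close, together with their supporting pairs, have close indices. -/
lemma index_compare [Nontrivial Y] {k : ℕ} (hk : k ≠ 0) (e : X ≃ₗ[ℂ] Y) (δ : ℝ) (hδ : 0 ≤ δ)
    (h1 : ∀ x, ‖e x‖ ≤ (1 + δ) * ‖x‖) (h2 : ∀ x, ‖x‖ ≤ (1 + δ) * ‖e x‖)
    (h3 : ∀ (x : X) (f : X →L[ℂ] ℂ), ‖x‖ = 1 → ‖f‖ = 1 → f x = 1 →
      ∃ g : Y →L[ℂ] ℂ, ‖g‖ ≤ 1 ∧ g (e x) = ‖e x‖ ∧ ∀ u, ‖g (e u) - f u‖ ≤ δ * ‖u‖) :
    polyIndex k X ≤ (1 + δ) ^ (2 * k + 1) * polyIndex k Y + δ * (1 + δ) ^ (2 * k + 2) := by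
  have hpos : 0 < 1 + δ := by linarith
  have h2' : ∀ y, ‖e.symm y‖ ≤ (1 + δ) * ‖y‖ := by
    intro y
    have := h2 (e.symm y)
    rwa [LinearEquiv.apply_symm_apply] at this
  let E : X ≃L[ℂ] Y := e.toContinuousLinearEquivOfBounds (1 + δ) (1 + δ) h1 h2'
  have hE : ∀ x, E x = e x := fun _ => rfl
  have hEs : ∀ y, E.symm y = e.symm y := fun _ => rfl
  have key : ∀ B : ContinuousMultilinearMap ℂ (fun _ : Fin k => Y) Y, polyNorm B = 1 →
      polyIndex k X ≤ (1 + δ) ^ (2 * k + 1) * polyRadius B + δ * (1 + δ) ^ (2 * k + 2) := by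
    intro B hB
    let A : ContinuousMultilinearMap ℂ (fun _ : Fin k => X) X :=
      (E.symm : Y →L[ℂ] X).compContinuousMultilinearMap
        (B.compContinuousLinearMap (fun _ => (E : X →L[ℂ] Y)))
    have hA : ∀ x, A (fun _ => x) = e.symm (B (fun _ => e x)) := fun _ => rfl
    have hBhom : ∀ y : Y, ‖B (fun _ => y)‖ ≤ ‖y‖ ^ k := by
      intro y
      by_cases hy : y = 0
      · obtain ⟨n, rfl⟩ := Nat.exists_eq_succ_of_ne_zero hk
        subst hy
        have : B (fun _ => (0 : Y)) = 0 := B.map_coord_zero (0 : Fin (n + 1)) rfl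
        rw [this]; simp
      have hn : 0 < ‖y‖ := norm_pos_iff.2 hy
      have hnC : (‖y‖ : ℂ) ≠ 0 := by exact_mod_cast hn.ne'
      have hyu : y = (‖y‖ : ℂ) • ((‖y‖⁻¹ : ℂ) • y) := by
        rw [smul_smul, mul_inv_cancel₀ hnC, one_smul]
      have h4 : B (fun _ => y) = ((‖y‖ : ℂ) ^ k) • B (fun _ => (‖y‖⁻¹ : ℂ) • y) := by
        conv_lhs => rw [hyu]
        rw [B.map_smul_univ (fun _ => (‖y‖ : ℂ)) (fun _ => (‖y‖⁻¹ : ℂ) • y)]
        simp
      rw [h4, norm_smul, norm_pow, Complex.norm_real, norm_norm]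
      have h5 : ‖B (fun _ => (‖y‖⁻¹ : ℂ) • y)‖ ≤ 1 := by
        rw [← hB]
        apply le_polyNorm
        rw [norm_smul, norm_inv, Complex.norm_real, norm_norm, inv_mul_cancel₀ hn.ne']
      calc ‖y‖ ^ k * ‖B (fun _ => (‖y‖⁻¹ : ℂ) • y)‖ ≤ ‖y‖ ^ k * 1 := by gcongr
        _ = ‖y‖ ^ k := mul_one _
    -- lower bound for the norm of `A`
    have hAn0 : polyNorm B ≤ (1 + δ) ^ (k + 1) * polyNorm A := by
      apply polyNorm_le
      intro y hy
      set x : X := (((1 + δ)⁻¹ : ℝ) : ℂ) • e.symm y with hx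
      have hxn : ‖x‖ ≤ 1 := by
        rw [hx, norm_smul, Complex.norm_real, Real.norm_of_nonneg (by positivity)]
        calc (1 + δ)⁻¹ * ‖e.symm y‖ ≤ (1 + δ)⁻¹ * ((1 + δ) * ‖y‖) := by gcongr; exact h2' y
          _ = ‖y‖ := by field_simp
          _ ≤ 1 := hy
      have hyx : y = (((1 + δ) : ℝ) : ℂ) • e x := by
        rw [hx, map_smul, LinearEquiv.apply_symm_apply, smul_smul, ← Complex.ofReal_mul,
          mul_inv_cancel₀ hpos.ne', Complex.ofReal_one, one_smul]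
      have h4 : B (fun _ => y) = ((((1 + δ) : ℝ) : ℂ) ^ k) • B (fun _ => e x) := by
        conv_lhs => rw [hyx]
        rw [B.map_smul_univ (fun _ => (((1 + δ) : ℝ) : ℂ)) (fun _ => e x)]
        simp
      have h5 : ‖B (fun _ => e x)‖ ≤ (1 + δ) * polyNorm A := by
        have h51 := h1 (A (fun _ => x))
        rw [hA, LinearEquiv.apply_symm_apply] at h51
        calc ‖B (fun _ => e x)‖ ≤ (1 + δ) * ‖A (fun _ => x)‖ := by rw [hA]; exact h51
          _ ≤ _ := by gcongr; exact le_polyNorm A x hxn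
      rw [h4, norm_smul, norm_pow, Complex.norm_real, Real.norm_of_nonneg hpos.le]
      calc (1 + δ) ^ k * ‖B (fun _ => e x)‖ ≤ (1 + δ) ^ k * ((1 + δ) * polyNorm A) := by gcongr
        _ = _ := by ring
    have hAn : 1 ≤ (1 + δ) ^ (k + 1) * polyNorm A := hB ▸ hAn0
    -- upper bound for the radius of `A`
    have hAr : polyRadius A ≤ (1 + δ) ^ k * polyRadius B + δ * (1 + δ) ^ (k + 1) := by
      have hRB := polyRadius_nonneg B
      apply polyRadius_le _ _ (by positivity)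
      intro x f hx hf hfx
      obtain ⟨g, hg1, hg2, hg3⟩ := h3 x f hx hf hfx
      have h4 := hg3 (A (fun _ => x))
      have h5 : e (A (fun _ => x)) = B (fun _ => e x) := by
        rw [hA, LinearEquiv.apply_symm_apply]
      rw [h5] at h4
      have hex : ‖e x‖ ≤ 1 + δ := by
        have := h1 x
        rwa [hx, mul_one] at this
      have h6 : ‖g (B (fun _ => e x))‖ ≤ (1 + δ) ^ k * polyRadius B := by
        calc ‖g (B (fun _ => e x))‖ ≤ polyRadius B * ‖e x‖ ^ k := support_le B (e x) g hg1 hg2 hk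
          _ ≤ polyRadius B * (1 + δ) ^ k := by gcongr
          _ = _ := mul_comm _ _
      have h7 : ‖A (fun _ => x)‖ ≤ (1 + δ) ^ (k + 1) := by
        rw [hA]
        calc ‖e.symm (B (fun _ => e x))‖ ≤ (1 + δ) * ‖B (fun _ => e x)‖ := h2' _
          _ ≤ (1 + δ) * ‖e x‖ ^ k := by gcongr; exact hBhom _
          _ ≤ (1 + δ) * (1 + δ) ^ k := by gcongr
          _ = _ := by ring
      calc ‖f (A (fun _ => x))‖ = ‖g (B (fun _ => e x)) - (g (B (fun _ => e x)) - f (A (fun _ => x)))‖ := by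
            congr 1; ring
        _ ≤ ‖g (B (fun _ => e x))‖ + ‖g (B (fun _ => e x)) - f (A (fun _ => x))‖ := norm_sub_le _ _
        _ ≤ (1 + δ) ^ k * polyRadius B + δ * (1 + δ) ^ (k + 1) := by
            gcongr
            exact h4.trans (by gcongr)
    have hidx := index_mul_le A
    have hI := index_nonneg (X := X) (k := k)
    calc polyIndex k X = polyIndex k X * 1 := (mul_one _).symm
      _ ≤ polyIndex k X * ((1 + δ) ^ (k + 1) * polyNorm A) := by gcongr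
      _ = (1 + δ) ^ (k + 1) * (polyIndex k X * polyNorm A) := by ring
      _ ≤ (1 + δ) ^ (k + 1) * ((1 + δ) ^ k * polyRadius B + δ * (1 + δ) ^ (k + 1)) := by
          gcongr
          exact hidx.trans hAr
      _ = _ := by ring
  have hne : (polyIndex k X - δ * (1 + δ) ^ (2 * k + 2)) / (1 + δ) ^ (2 * k + 1) ≤
      polyIndex k Y := by
    obtain ⟨B₀, hB₀⟩ := exists_norm_one (X := Y) k
    refine le_csInf ⟨polyRadius B₀, B₀, hB₀, rfl⟩ ?_
    rintro _ ⟨B, hB, rfl⟩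
    rw [div_le_iff₀ (by positivity)]
    have := key B hB
    linarith
  rw [div_le_iff₀ (by positivity)] at hne
  linarith

end Compare

section Path

/-- endpoint of the parameter interval: `a0 ^ n = n + 1` -/
noncomputable def a0 (n : ℕ) : ℝ := ((n : ℝ) + 1) ^ ((1 : ℝ) / n)

lemma a0_pow {n : ℕ} (hn : n ≠ 0) : a0 n ^ n = (n : ℝ) + 1 := by
  have hn' : (n : ℝ) ≠ 0 := by exact_mod_cast hn
  rw [a0, ← Real.rpow_natCast, ← Real.rpow_mul (by positivity), one_div_mul_cancel hn',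
    Real.rpow_one]

lemma one_le_a0 (n : ℕ) : 1 ≤ a0 n := by
  apply Real.one_le_rpow _ (by positivity)
  have : (0 : ℝ) ≤ n := Nat.cast_nonneg n
  linarith

/-- the coefficient of `|z|` in the supporting functionals -/
noncomputable def beta (n : ℕ) (a : ℝ) : ℝ := (((n : ℝ) + 1) * a - a ^ (n + 1)) / n

lemma beta_one {n : ℕ} (hn : n ≠ 0) : beta n 1 = 1 := by
  have hn' : (n : ℝ) ≠ 0 := by exact_mod_cast hn
  rw [beta, one_pow, mul_one, add_sub_cancel_right, div_self hn']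

lemma beta_cont (n : ℕ) : Continuous (beta n) := by
  unfold beta
  fun_prop

/-- one coordinate of the embedding defining the extremal norm -/
noncomputable def embFun (n : ℕ) (x : ℂ × ℂ) (a : ℝ) : WithLp 1 (ℂ × ℂ) :=
  WithLp.toLp 1 (((beta n a : ℝ) : ℂ) * x.1, ((a ^ (n + 1) : ℝ) : ℂ) * x.2)

lemma embFun_cont (n : ℕ) (x : ℂ × ℂ) : Continuous (embFun n x) := by
  have h := beta_cont n
  unfold embFun
  fun_prop

lemma embFun_add (n : ℕ) (x y : ℂ × ℂ) (a : ℝ) :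
    embFun n (x + y) a = embFun n x a + embFun n y a := by
  unfold embFun
  rw [← WithLp.toLp_add]
  congr 1
  ext <;> simp [mul_add]

lemma embFun_smul (n : ℕ) (c : ℂ) (x : ℂ × ℂ) (a : ℝ) :
    embFun n (c • x) a = c • embFun n x a := by
  unfold embFun
  rw [← WithLp.toLp_smul]
  congr 1
  ext <;> simp <;> ring

lemma embFun_norm (n : ℕ) (x : ℂ × ℂ) (a : ℝ) (ha : 0 ≤ a) :
    ‖embFun n x a‖ = |beta n a| * ‖x.1‖ + a ^ (n + 1) * ‖x.2‖ := by
  unfold embFun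
  rw [WithLp.prod_norm_eq_of_L1]
  change ‖((beta n a : ℝ) : ℂ) * x.1‖ + ‖((a ^ (n + 1) : ℝ) : ℂ) * x.2‖ = _
  rw [norm_mul, norm_mul, Complex.norm_real, Complex.norm_real, Real.norm_eq_abs,
    Real.norm_eq_abs, abs_of_nonneg (pow_nonneg ha (n + 1))]

/-- the embedding defining the extremal norm -/
noncomputable def emb (n : ℕ) :
    (ℂ × ℂ) →ₗ[ℂ] C(Set.Icc (1 : ℝ) (a0 n), WithLp 1 (ℂ × ℂ)) where
  toFun x := ⟨fun a => embFun n x a, (embFun_cont n x).comp continuous_subtype_val⟩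
  map_add' x y := ContinuousMap.ext fun a => embFun_add n x y a
  map_smul' c x := ContinuousMap.ext fun a => embFun_smul n c x a

lemma beta_nonneg {n : ℕ} (hn : n ≠ 0) (a : ℝ) (h1 : 1 ≤ a) (h2 : a ≤ a0 n) : 0 ≤ beta n a := by
  have h3 : a ^ n ≤ (n : ℝ) + 1 := by
    rw [← a0_pow hn]
    gcongr
  have h4 : beta n a = a * ((n : ℝ) + 1 - a ^ n) / n := by
    unfold beta; ring
  rw [h4]
  have : 0 ≤ (n : ℝ) + 1 - a ^ n := by linarith
  positivity

/-- the values of the linear forms defining the extremal norm are dominated by it -/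
lemma form_le {n : ℕ} (hn : n ≠ 0) (x : ℂ × ℂ) (a : ℝ) (h1 : 1 ≤ a) (h2 : a ≤ a0 n) :
    beta n a * ‖x.1‖ + a ^ (n + 1) * ‖x.2‖ ≤ ‖emb n x‖ := by
  have h := (emb n x).norm_coe_le_norm ⟨a, h1, h2⟩
  have h3 : emb n x ⟨a, h1, h2⟩ = embFun n x a := rfl
  rw [h3, embFun_norm n x a (by linarith), abs_of_nonneg (beta_nonneg hn a h1 h2)] at h
  exact h

lemma emb_le {n : ℕ} (hn : n ≠ 0) (x : ℂ × ℂ) (c : ℝ) (hc : 0 ≤ c)
    (h : ∀ a : ℝ, 1 ≤ a → a ≤ a0 n → beta n a * ‖x.1‖ + a ^ (n + 1) * ‖x.2‖ ≤ c) :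
    ‖emb n x‖ ≤ c := by
  rw [ContinuousMap.norm_le _ hc]
  rintro ⟨a, h1, h2⟩
  have h3 : emb n x ⟨a, h1, h2⟩ = embFun n x a := rfl
  rw [h3, embFun_norm n x a (by linarith), abs_of_nonneg (beta_nonneg hn a h1 h2)]
  exact h a h1 h2

lemma sum_le_emb {n : ℕ} (hn : n ≠ 0) (x : ℂ × ℂ) : ‖x.1‖ + ‖x.2‖ ≤ ‖emb n x‖ := by
  have := form_le hn x 1 le_rfl (one_le_a0 n)
  rwa [beta_one hn, one_pow, one_mul, one_mul] at this

lemma sup_le_emb {n : ℕ} (hn : n ≠ 0) (x : ℂ × ℂ) : ‖x‖ ≤ ‖emb n x‖ := by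
  have h := sum_le_emb hn x
  rw [Prod.norm_def]
  apply max_le
  · linarith [norm_nonneg x.2]
  · linarith [norm_nonneg x.1]

lemma beta_le_one {n : ℕ} (hn : n ≠ 0) (a : ℝ) (h1 : 1 ≤ a) : beta n a ≤ 1 := by
  have hn' : (0 : ℝ) < n := by exact_mod_cast Nat.pos_of_ne_zero hn
  have h := one_add_mul_le_pow (a := a - 1) (by linarith) (n + 1)
  rw [add_sub_cancel] at h
  push_cast at h
  unfold beta
  rw [div_le_one hn']
  linarith

/-- comparison constant -/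
noncomputable def kap (n : ℕ) : ℝ := 1 + a0 n ^ (n + 1)

lemma one_le_kap (n : ℕ) : 1 ≤ kap n := by
  have := one_le_a0 n
  have : 0 ≤ a0 n ^ (n + 1) := by positivity
  unfold kap
  linarith

lemma emb_le_sup {n : ℕ} (hn : n ≠ 0) (x : ℂ × ℂ) : ‖emb n x‖ ≤ kap n * ‖x‖ := by
  have hk := one_le_kap n
  apply emb_le hn x _ (by positivity)
  intro a h1 h2
  have h3 : ‖x.1‖ ≤ ‖x‖ := norm_fst_le x
  have h4 : ‖x.2‖ ≤ ‖x‖ := norm_snd_le x
  have h5 := beta_le_one hn a h1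
  have h6 : a ^ (n + 1) ≤ a0 n ^ (n + 1) := by gcongr
  have h0 : 0 ≤ a0 n := by linarith [one_le_a0 n]
  calc beta n a * ‖x.1‖ + a ^ (n + 1) * ‖x.2‖ ≤ 1 * ‖x‖ + a0 n ^ (n + 1) * ‖x‖ := by
        gcongr
    _ = kap n * ‖x‖ := by unfold kap; ring

/-- the embedding of `ℂ × ℂ` that defines the norm with parameter `θ` -/
noncomputable def pathMap (n : ℕ) (θ : ℝ) : (ℂ × ℂ) →ₗ[ℂ]
    WithLp 1 (C(Set.Icc (1 : ℝ) (a0 n), WithLp 1 (ℂ × ℂ)) × (ℂ × ℂ)) where
  toFun x := WithLp.toLp 1 (((|Real.cos θ| : ℝ) : ℂ) • emb n x, ((|Real.sin θ| : ℝ) : ℂ) • x)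
  map_add' x y := by
    rw [← WithLp.toLp_add, map_add]
    congr 1
    refine Prod.ext ?_ ?_
    · change ((|Real.cos θ| : ℝ) : ℂ) • (emb n x + emb n y) =
        ((|Real.cos θ| : ℝ) : ℂ) • emb n x + ((|Real.cos θ| : ℝ) : ℂ) • emb n y
      module
    · change ((|Real.sin θ| : ℝ) : ℂ) • (x + y) =
        ((|Real.sin θ| : ℝ) : ℂ) • x + ((|Real.sin θ| : ℝ) : ℂ) • y
      module
  map_smul' c x := by
    rw [RingHom.id_apply, ← WithLp.toLp_smul, map_smul]
    congr 1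
    exact Prod.ext (smul_comm _ _ _) (smul_comm _ _ _)

/-- The path of normed spaces: `ℂ × ℂ` with the norm `|cos θ| ‖x‖₀ + |sin θ| ‖x‖₁`, where the
first norm is the extremal one and the second is the maximum norm. -/
def Vt (_n : ℕ) (_θ : ℝ) : Type := ℂ × ℂ

instance (n : ℕ) (θ : ℝ) : AddCommGroup (Vt n θ) := inferInstanceAs (AddCommGroup (ℂ × ℂ))

instance (n : ℕ) (θ : ℝ) : Module ℂ (Vt n θ) := inferInstanceAs (Module ℂ (ℂ × ℂ))

instance (n : ℕ) (θ : ℝ) : Module.Finite ℂ (Vt n θ) :=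
  inferInstanceAs (Module.Finite ℂ (ℂ × ℂ))

instance (n : ℕ) (θ : ℝ) : Nontrivial (Vt n θ) := inferInstanceAs (Nontrivial (ℂ × ℂ))

/-- forget the norm -/
def toPair (n : ℕ) (θ : ℝ) : Vt n θ ≃ₗ[ℂ] (ℂ × ℂ) := LinearEquiv.refl ℂ (ℂ × ℂ)

lemma pathMap_norm (n : ℕ) (θ : ℝ) (x : ℂ × ℂ) :
    ‖pathMap n θ x‖ = |Real.cos θ| * ‖emb n x‖ + |Real.sin θ| * ‖x‖ := by
  change ‖WithLp.toLp 1 (((|Real.cos θ| : ℝ) : ℂ) • emb n x, ((|Real.sin θ| : ℝ) : ℂ) • x)‖ = _
  rw [WithLp.prod_norm_eq_of_L1]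
  change ‖((|Real.cos θ| : ℝ) : ℂ) • emb n x‖ + ‖((|Real.sin θ| : ℝ) : ℂ) • x‖ = _
  rw [norm_smul, norm_smul, Complex.norm_real, Complex.norm_real, Real.norm_eq_abs,
    Real.norm_eq_abs, abs_abs, abs_abs]

lemma one_le_weights (θ : ℝ) : 1 ≤ |Real.cos θ| + |Real.sin θ| := by
  have h1 := Real.cos_sq_add_sin_sq θ
  have h2 := abs_nonneg (Real.cos θ)
  have h3 := abs_nonneg (Real.sin θ)
  have h4 := sq_abs (Real.cos θ)
  have h5 := sq_abs (Real.sin θ)
  nlinarith [mul_nonneg h2 h3]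

lemma pathMap_ge {n : ℕ} (hn : n ≠ 0) (θ : ℝ) (x : ℂ × ℂ) : ‖x‖ ≤ ‖pathMap n θ x‖ := by
  rw [pathMap_norm]
  have h1 := one_le_weights θ
  have h2 := sup_le_emb hn x
  calc ‖x‖ = 1 * ‖x‖ := (one_mul _).symm
    _ ≤ (|Real.cos θ| + |Real.sin θ|) * ‖x‖ := by gcongr
    _ = |Real.cos θ| * ‖x‖ + |Real.sin θ| * ‖x‖ := by ring
    _ ≤ _ := by gcongr

lemma pathMap_inj (n : ℕ) (θ : ℝ) :
    Function.Injective ((pathMap (n + 1) θ).comp (toPair n θ).toLinearMap) := by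
  rw [← LinearMap.ker_eq_bot, LinearMap.ker_eq_bot']
  intro x hx
  have h := pathMap_ge (Nat.succ_ne_zero n) θ (toPair n θ x)
  have h2 : pathMap (n + 1) θ (toPair n θ x) = 0 := hx
  rw [h2, norm_zero] at h
  have h3 : toPair n θ x = 0 := norm_le_zero_iff.1 h
  exact (toPair n θ).map_eq_zero_iff.1 h3

noncomputable instance (n : ℕ) (θ : ℝ) : NormedAddCommGroup (Vt n θ) :=
  NormedAddCommGroup.induced (Vt n θ) _ ((pathMap (n + 1) θ).comp (toPair n θ).toLinearMap)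
    (pathMap_inj n θ)

noncomputable instance (n : ℕ) (θ : ℝ) : NormedSpace ℂ (Vt n θ) :=
  NormedSpace.induced ℂ (Vt n θ) _ ((pathMap (n + 1) θ).comp (toPair n θ).toLinearMap)

lemma Vt_norm (n : ℕ) (θ : ℝ) (x : Vt n θ) :
    ‖x‖ = |Real.cos θ| * ‖emb (n + 1) (toPair n θ x)‖ + |Real.sin θ| * ‖toPair n θ x‖ :=
  pathMap_norm (n + 1) θ (toPair n θ x)

lemma Vt_norm_ge (n : ℕ) (θ : ℝ) (x : Vt n θ) : ‖toPair n θ x‖ ≤ ‖x‖ :=
  pathMap_ge (Nat.succ_ne_zero n) θ (toPair n θ x)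

/-- the isometric embedding of `Vt n θ` -/
noncomputable def isoMap (n : ℕ) (θ : ℝ) : Vt n θ →ₗᵢ[ℂ]
    WithLp 1 (C(Set.Icc (1 : ℝ) (a0 (n + 1)), WithLp 1 (ℂ × ℂ)) × (ℂ × ℂ)) :=
  ⟨(pathMap (n + 1) θ).comp (toPair n θ).toLinearMap, fun _ => rfl⟩

lemma eq_of_norm_le_re (z : ℂ) (a : ℝ) (hz : ‖z‖ ≤ a) (hre : z.re = a) : z = a := by
  have ha : 0 ≤ a := (norm_nonneg z).trans hz
  have h1 := Complex.sq_norm z
  rw [Complex.normSq_apply, hre] at h1
  have h2 : ‖z‖ ^ 2 ≤ a ^ 2 := by gcongr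
  have h3 : z.im * z.im ≤ 0 := by nlinarith
  have h4 : z.im = 0 := by
    have := mul_self_nonneg z.im
    exact mul_self_eq_zero.1 (le_antisymm h3 this)
  exact Complex.ext (by rw [hre, Complex.ofReal_re]) (by rw [h4, Complex.ofReal_im])

lemma complex_split (z w : ℂ) (a b : ℝ) (hz : ‖z‖ ≤ a) (hw : ‖w‖ ≤ b) (hab : a + b = 1)
    (h : z + w = 1) : z = a ∧ w = b := by
  have h1 : z.re + w.re = 1 := by rw [← Complex.add_re, h]; simp
  have h2 : z.re ≤ a := (Complex.re_le_norm z).trans hz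
  have h3 : w.re ≤ b := (Complex.re_le_norm w).trans hw
  exact ⟨eq_of_norm_le_re z a hz (by linarith), eq_of_norm_le_re w b hw (by linarith)⟩

/-- Every norm-one functional that attains its norm splits into two norming functionals. -/
lemma split_functional (n : ℕ) (θ : ℝ) (x : Vt n θ) (f : Vt n θ →L[ℂ] ℂ) (hx : ‖x‖ = 1)
    (hf : ‖f‖ = 1) (hfx : f x = 1) :
    ∃ (g₀ : C(Set.Icc (1 : ℝ) (a0 (n + 1)), WithLp 1 (ℂ × ℂ)) →L[ℂ] ℂ) (g₁ : (ℂ × ℂ) →L[ℂ] ℂ),
      ‖g₀‖ ≤ 1 ∧ ‖g₁‖ ≤ 1 ∧ g₀ (emb (n + 1) (toPair n θ x)) = ‖emb (n + 1) (toPair n θ x)‖ ∧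
      g₁ (toPair n θ x) = ‖toPair n θ x‖ ∧
      ∀ u, f u = ((|Real.cos θ| : ℝ) : ℂ) * g₀ (emb (n + 1) (toPair n θ u)) +
        ((|Real.sin θ| : ℝ) : ℂ) * g₁ (toPair n θ u) := by
  obtain ⟨F, hF, hFn⟩ := exists_extension_norm_eq (LinearMap.range (isoMap n θ).toLinearMap)
    (f.comp ((isoMap n θ).equivRange.symm.toContinuousLinearEquiv :
      LinearMap.range (isoMap n θ).toLinearMap →L[ℂ] Vt n θ))
  have hF1 : ‖F‖ ≤ 1 := by
    rw [hFn]
    apply ContinuousLinearMap.opNorm_le_bound _ zero_le_one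
    intro y
    rw [one_mul]
    calc ‖f ((isoMap n θ).equivRange.symm y)‖ ≤ ‖f‖ * ‖(isoMap n θ).equivRange.symm y‖ :=
          f.le_opNorm _
      _ = ‖y‖ := by rw [hf, one_mul, LinearIsometryEquiv.norm_map]
  have hFu : ∀ u, F (isoMap n θ u) = f u := by
    intro u
    have h1 := hF ((isoMap n θ).equivRange u)
    have h2 : (((isoMap n θ).equivRange u : LinearMap.range (isoMap n θ).toLinearMap) :
      WithLp 1 (C(Set.Icc (1 : ℝ) (a0 (n + 1)), WithLp 1 (ℂ × ℂ)) × (ℂ × ℂ))) = isoMap n θ u := rfl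
    rw [h2] at h1
    rw [h1]
    change f ((isoMap n θ).equivRange.symm ((isoMap n θ).equivRange u)) = f u
    rw [LinearIsometryEquiv.symm_apply_apply]
  -- the two coordinates of `F`
  let g₀ : C(Set.Icc (1 : ℝ) (a0 (n + 1)), WithLp 1 (ℂ × ℂ)) →L[ℂ] ℂ :=
    LinearMap.mkContinuous
      { toFun := fun y => F (WithLp.toLp 1 (y, 0))
        map_add' := fun y z => by
          rw [← map_add, ← WithLp.toLp_add]
          congr 2
          exact Prod.ext rfl (add_zero (0 : ℂ × ℂ)).symm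
        map_smul' := fun c y => by
          rw [RingHom.id_apply, ← map_smul, ← WithLp.toLp_smul]
          congr 2
          exact Prod.ext rfl (smul_zero (A := ℂ × ℂ) c).symm } 1 (by
      intro y
      have h1 : ‖WithLp.toLp 1 ((y, 0) : C(Set.Icc (1 : ℝ) (a0 (n + 1)), WithLp 1 (ℂ × ℂ)) × (ℂ × ℂ))‖
          = ‖y‖ := by
        rw [WithLp.prod_norm_eq_of_L1]
        change ‖y‖ + ‖(0 : ℂ × ℂ)‖ = ‖y‖
        rw [norm_zero, add_zero]
      calc ‖F (WithLp.toLp 1 (y, 0))‖ ≤ ‖F‖ * ‖WithLp.toLp 1 ((y, 0) :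
            C(Set.Icc (1 : ℝ) (a0 (n + 1)), WithLp 1 (ℂ × ℂ)) × (ℂ × ℂ))‖ := F.le_opNorm _
        _ ≤ 1 * ‖y‖ := by rw [h1]; gcongr)
  let g₁ : (ℂ × ℂ) →L[ℂ] ℂ :=
    LinearMap.mkContinuous
      { toFun := fun y => F (WithLp.toLp 1 (0, y))
        map_add' := fun y z => by
          rw [← map_add, ← WithLp.toLp_add]
          congr 2
          exact Prod.ext (add_zero _).symm rfl
        map_smul' := fun c y => by
          rw [RingHom.id_apply, ← map_smul, ← WithLp.toLp_smul]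
          congr 2
          refine Prod.ext ?_ rfl
          change (0 : C(Set.Icc (1 : ℝ) (a0 (n + 1)), WithLp 1 (ℂ × ℂ))) =
            c • (0 : C(Set.Icc (1 : ℝ) (a0 (n + 1)), WithLp 1 (ℂ × ℂ)))
          module } 1 (by
      intro y
      have h1 : ‖WithLp.toLp 1 ((0, y) : C(Set.Icc (1 : ℝ) (a0 (n + 1)), WithLp 1 (ℂ × ℂ)) × (ℂ × ℂ))‖
          = ‖y‖ := by
        rw [WithLp.prod_norm_eq_of_L1]
        change ‖(0 : C(Set.Icc (1 : ℝ) (a0 (n + 1)), WithLp 1 (ℂ × ℂ)))‖ + ‖y‖ = ‖y‖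
        rw [norm_zero, zero_add]
      calc ‖F (WithLp.toLp 1 (0, y))‖ ≤ ‖F‖ * ‖WithLp.toLp 1 ((0, y) :
            C(Set.Icc (1 : ℝ) (a0 (n + 1)), WithLp 1 (ℂ × ℂ)) × (ℂ × ℂ))‖ := F.le_opNorm _
        _ ≤ 1 * ‖y‖ := by rw [h1]; gcongr)
  have hg₀ : ∀ y, g₀ y = F (WithLp.toLp 1 (y, 0)) := fun _ => rfl
  have hg₁ : ∀ y, g₁ y = F (WithLp.toLp 1 (0, y)) := fun _ => rfl
  have hg₀n : ‖g₀‖ ≤ 1 := LinearMap.mkContinuous_norm_le _ zero_le_one _
  have hg₁n : ‖g₁‖ ≤ 1 := LinearMap.mkContinuous_norm_le _ zero_le_one _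
  have hdec : ∀ u, f u = ((|Real.cos θ| : ℝ) : ℂ) * g₀ (emb (n + 1) (toPair n θ u)) +
        ((|Real.sin θ| : ℝ) : ℂ) * g₁ (toPair n θ u) := by
    intro u
    have e1 : ((|Real.cos θ| : ℝ) : ℂ) * g₀ (emb (n + 1) (toPair n θ u)) =
        F (WithLp.toLp 1 (((|Real.cos θ| : ℝ) : ℂ) • emb (n + 1) (toPair n θ u), 0)) := by
      rw [← hg₀, g₀.map_smul, smul_eq_mul]
    have e2 : ((|Real.sin θ| : ℝ) : ℂ) * g₁ (toPair n θ u) =
        F (WithLp.toLp 1 (0, ((|Real.sin θ| : ℝ) : ℂ) • toPair n θ u)) := by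
      rw [← hg₁, g₁.map_smul, smul_eq_mul]
    rw [← hFu u, e1, e2, ← map_add, ← WithLp.toLp_add]
    congr 1
    change WithLp.toLp 1 (((|Real.cos θ| : ℝ) : ℂ) • emb (n + 1) (toPair n θ u),
      ((|Real.sin θ| : ℝ) : ℂ) • toPair n θ u) = _
    congr 1
    refine Prod.ext ?_ ?_
    · exact (add_zero _).symm
    · exact (zero_add _).symm
  -- both coordinates are norming at `x`
  have hxn := Vt_norm n θ x
  rw [hx] at hxn
  have hx1 := hdec x
  rw [hfx] at hx1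
  have hb0 : ‖g₀ (emb (n + 1) (toPair n θ x))‖ ≤ ‖emb (n + 1) (toPair n θ x)‖ := by
    calc _ ≤ ‖g₀‖ * ‖emb (n + 1) (toPair n θ x)‖ := g₀.le_opNorm _
      _ ≤ 1 * ‖emb (n + 1) (toPair n θ x)‖ := by gcongr
      _ = _ := one_mul _
  have hb1 : ‖g₁ (toPair n θ x)‖ ≤ ‖toPair n θ x‖ := by
    calc _ ≤ ‖g₁‖ * ‖toPair n θ x‖ := g₁.le_opNorm _
      _ ≤ 1 * ‖toPair n θ x‖ := by gcongr
      _ = _ := one_mul _
  obtain ⟨hs0, hs1⟩ := complex_split _ _ (|Real.cos θ| * ‖emb (n + 1) (toPair n θ x)‖)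
    (|Real.sin θ| * ‖toPair n θ x‖)
    (by rw [norm_mul, Complex.norm_real, Real.norm_eq_abs, abs_abs]; gcongr)
    (by rw [norm_mul, Complex.norm_real, Real.norm_eq_abs, abs_abs]; gcongr) hxn.symm hx1.symm
  -- correct the coordinates with zero weight
  obtain ⟨G₀, hG₀n, hG₀x, hG₀⟩ : ∃ G₀ : C(Set.Icc (1 : ℝ) (a0 (n + 1)), WithLp 1 (ℂ × ℂ)) →L[ℂ] ℂ,
      ‖G₀‖ ≤ 1 ∧ G₀ (emb (n + 1) (toPair n θ x)) = ‖emb (n + 1) (toPair n θ x)‖ ∧
      ∀ y, ((|Real.cos θ| : ℝ) : ℂ) * g₀ y = ((|Real.cos θ| : ℝ) : ℂ) * G₀ y := by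
    by_cases hc : |Real.cos θ| = 0
    · obtain ⟨G, hG, hGx⟩ := exists_dual_vector'' ℂ (emb (n + 1) (toPair n θ x))
      exact ⟨G, hG, hGx, fun y => by rw [hc]; simp⟩
    · refine ⟨g₀, hg₀n, ?_, fun y => rfl⟩
      have hc' : ((|Real.cos θ| : ℝ) : ℂ) ≠ 0 := by exact_mod_cast hc
      rw [Complex.ofReal_mul] at hs0
      exact mul_left_cancel₀ hc' hs0
  obtain ⟨G₁, hG₁n, hG₁x, hG₁⟩ : ∃ G₁ : (ℂ × ℂ) →L[ℂ] ℂ,
      ‖G₁‖ ≤ 1 ∧ G₁ (toPair n θ x) = ‖toPair n θ x‖ ∧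
      ∀ y, ((|Real.sin θ| : ℝ) : ℂ) * g₁ y = ((|Real.sin θ| : ℝ) : ℂ) * G₁ y := by
    by_cases hc : |Real.sin θ| = 0
    · obtain ⟨G, hG, hGx⟩ := exists_dual_vector'' ℂ (toPair n θ x)
      exact ⟨G, hG, hGx, fun y => by rw [hc]; simp⟩
    · refine ⟨g₁, hg₁n, ?_, fun y => rfl⟩
      have hc' : ((|Real.sin θ| : ℝ) : ℂ) ≠ 0 := by exact_mod_cast hc
      rw [Complex.ofReal_mul] at hs1
      exact mul_left_cancel₀ hc' hs1
  exact ⟨G₀, G₁, hG₀n, hG₁n, hG₀x, hG₁x, fun u => by rw [hdec u, hG₀, hG₁]⟩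

/-- distance between the parameters -/
noncomputable def dpar (n : ℕ) (θ θ' : ℝ) : ℝ :=
  kap (n + 1) * (|(|Real.cos θ| - |Real.cos θ'|)| + |(|Real.sin θ| - |Real.sin θ'|)|)

lemma dpar_nonneg (n : ℕ) (θ θ' : ℝ) : 0 ≤ dpar n θ θ' := by
  have := one_le_kap (n + 1)
  unfold dpar
  positivity

lemma dpar_comm (n : ℕ) (θ θ' : ℝ) : dpar n θ θ' = dpar n θ' θ := by
  unfold dpar
  rw [abs_sub_comm |Real.cos θ|, abs_sub_comm |Real.sin θ|]

lemma weights_diff (n : ℕ) (θ θ' η : ℝ) (u : ℂ × ℂ) :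
    |(|Real.cos θ| - |Real.cos θ'|)| * ‖emb (n + 1) u‖ +
      |(|Real.sin θ| - |Real.sin θ'|)| * ‖u‖ ≤ dpar n θ θ' * ‖pathMap (n + 1) η u‖ := by
  have h1 := emb_le_sup (Nat.succ_ne_zero n) u
  have h2 := pathMap_ge (Nat.succ_ne_zero n) η u
  have hk := one_le_kap (n + 1)
  have hk0 : 0 ≤ kap (n + 1) := by linarith
  calc _ ≤ |(|Real.cos θ| - |Real.cos θ'|)| * (kap (n + 1) * ‖pathMap (n + 1) η u‖) +
      |(|Real.sin θ| - |Real.sin θ'|)| * (kap (n + 1) * ‖pathMap (n + 1) η u‖) := by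
        gcongr
        · exact h1.trans (by gcongr)
        · calc ‖u‖ = 1 * ‖u‖ := (one_mul _).symm
            _ ≤ kap (n + 1) * ‖pathMap (n + 1) η u‖ := by gcongr
    _ = _ := by unfold dpar; ring

/-- The index changes continuously along the path. -/
lemma index_path_le (n : ℕ) (θ θ' : ℝ) :
    polyIndex (n + 2) (Vt n θ) ≤ (1 + dpar n θ θ') ^ (2 * (n + 2) + 1) * polyIndex (n + 2) (Vt n θ')
      + dpar n θ θ' * (1 + dpar n θ θ') ^ (2 * (n + 2) + 2) := by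
  have hn1 := abs_nonneg (Real.cos θ)
  have hn2 := abs_nonneg (Real.cos θ')
  have hn3 := abs_nonneg (Real.sin θ)
  have hn4 := abs_nonneg (Real.sin θ')
  have hcomp : ∀ η η' : ℝ, ∀ u : ℂ × ℂ, ‖pathMap (n + 1) η u‖ ≤
      (1 + dpar n η η') * ‖pathMap (n + 1) η' u‖ := by
    intro η η' u
    have h := weights_diff n η η' η' u
    have h1 := pathMap_norm (n + 1) η u
    have h2 := pathMap_norm (n + 1) η' u
    have h3 : (|Real.cos η| - |Real.cos η'|) * ‖emb (n + 1) u‖ ≤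
        |(|Real.cos η| - |Real.cos η'|)| * ‖emb (n + 1) u‖ := by
      gcongr
      exact le_abs_self _
    have h4 : (|Real.sin η| - |Real.sin η'|) * ‖u‖ ≤
        |(|Real.sin η| - |Real.sin η'|)| * ‖u‖ := by
      gcongr
      exact le_abs_self _
    nlinarith
  refine index_compare (Nat.succ_ne_zero (n + 1))
    ((toPair n θ).trans (toPair n θ').symm) (dpar n θ θ') (dpar_nonneg n θ θ') ?_ ?_ ?_
  · intro x
    have := hcomp θ' θ (toPair n θ x)
    rw [dpar_comm] at this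
    exact this
  · intro x
    exact hcomp θ θ' (toPair n θ x)
  · intro x f hx hf hfx
    obtain ⟨g₀, g₁, h0n, h1n, h0x, h1x, hfu⟩ := split_functional n θ x f hx hf hfx
    let gl : Vt n θ' →ₗ[ℂ] ℂ :=
      ((|Real.cos θ'| : ℝ) : ℂ) • (g₀.toLinearMap ∘ₗ emb (n + 1) ∘ₗ (toPair n θ').toLinearMap) +
      ((|Real.sin θ'| : ℝ) : ℂ) • (g₁.toLinearMap ∘ₗ (toPair n θ').toLinearMap)
    have hgl : ∀ u, gl u = ((|Real.cos θ'| : ℝ) : ℂ) * g₀ (emb (n + 1) (toPair n θ' u)) +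
        ((|Real.sin θ'| : ℝ) : ℂ) * g₁ (toPair n θ' u) := fun _ => rfl
    have hgb : ∀ u, ‖gl u‖ ≤ 1 * ‖u‖ := by
      intro u
      rw [hgl, one_mul, Vt_norm]
      calc _ ≤ ‖((|Real.cos θ'| : ℝ) : ℂ) * g₀ (emb (n + 1) (toPair n θ' u))‖ +
            ‖((|Real.sin θ'| : ℝ) : ℂ) * g₁ (toPair n θ' u)‖ := norm_add_le _ _
        _ = |Real.cos θ'| * ‖g₀ (emb (n + 1) (toPair n θ' u))‖ +
            |Real.sin θ'| * ‖g₁ (toPair n θ' u)‖ := by
          rw [norm_mul, norm_mul, Complex.norm_real, Complex.norm_real, Real.norm_eq_abs,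
            Real.norm_eq_abs, abs_abs, abs_abs]
        _ ≤ |Real.cos θ'| * (1 * ‖emb (n + 1) (toPair n θ' u)‖) +
            |Real.sin θ'| * (1 * ‖toPair n θ' u‖) := by
          gcongr
          · exact (g₀.le_opNorm _).trans (by gcongr)
          · exact (g₁.le_opNorm _).trans (by gcongr)
        _ = _ := by rw [one_mul, one_mul]
    refine ⟨gl.mkContinuous 1 hgb, LinearMap.mkContinuous_norm_le _ zero_le_one _, ?_, ?_⟩
    · rw [LinearMap.mkContinuous_apply, hgl, Vt_norm]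
      change ((|Real.cos θ'| : ℝ) : ℂ) * g₀ (emb (n + 1) (toPair n θ x)) +
        ((|Real.sin θ'| : ℝ) : ℂ) * g₁ (toPair n θ x) = _
      rw [h0x, h1x]
      push_cast
      rfl
    · intro u
      rw [LinearMap.mkContinuous_apply, hgl, hfu]
      change ‖((|Real.cos θ'| : ℝ) : ℂ) * g₀ (emb (n + 1) (toPair n θ u)) +
        ((|Real.sin θ'| : ℝ) : ℂ) * g₁ (toPair n θ u) - (((|Real.cos θ| : ℝ) : ℂ) *
        g₀ (emb (n + 1) (toPair n θ u)) + ((|Real.sin θ| : ℝ) : ℂ) * g₁ (toPair n θ u))‖ ≤ _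
      have e1 : ((|Real.cos θ'| : ℝ) : ℂ) * g₀ (emb (n + 1) (toPair n θ u)) +
        ((|Real.sin θ'| : ℝ) : ℂ) * g₁ (toPair n θ u) - (((|Real.cos θ| : ℝ) : ℂ) *
        g₀ (emb (n + 1) (toPair n θ u)) + ((|Real.sin θ| : ℝ) : ℂ) * g₁ (toPair n θ u)) =
        ((|Real.cos θ'| - |Real.cos θ| : ℝ) : ℂ) * g₀ (emb (n + 1) (toPair n θ u)) +
        ((|Real.sin θ'| - |Real.sin θ| : ℝ) : ℂ) * g₁ (toPair n θ u) := by
        push_cast; ring
      rw [e1]
      calc _ ≤ ‖((|Real.cos θ'| - |Real.cos θ| : ℝ) : ℂ) * g₀ (emb (n + 1) (toPair n θ u))‖ +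
            ‖((|Real.sin θ'| - |Real.sin θ| : ℝ) : ℂ) * g₁ (toPair n θ u)‖ := norm_add_le _ _
        _ = |(|Real.cos θ'| - |Real.cos θ|)| * ‖g₀ (emb (n + 1) (toPair n θ u))‖ +
            |(|Real.sin θ'| - |Real.sin θ|)| * ‖g₁ (toPair n θ u)‖ := by
          rw [norm_mul, norm_mul, Complex.norm_real, Complex.norm_real, Real.norm_eq_abs,
            Real.norm_eq_abs]
        _ ≤ |(|Real.cos θ'| - |Real.cos θ|)| * (1 * ‖emb (n + 1) (toPair n θ u)‖) +
            |(|Real.sin θ'| - |Real.sin θ|)| * (1 * ‖toPair n θ u‖) := by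
          gcongr
          · exact (g₀.le_opNorm _).trans (by gcongr)
          · exact (g₁.le_opNorm _).trans (by gcongr)
        _ = |(|Real.cos θ'| - |Real.cos θ|)| * ‖emb (n + 1) (toPair n θ u)‖ +
            |(|Real.sin θ'| - |Real.sin θ|)| * ‖toPair n θ u‖ := by rw [one_mul, one_mul]
        _ ≤ dpar n θ' θ * ‖pathMap (n + 1) θ (toPair n θ u)‖ := weights_diff n θ' θ θ _
        _ = dpar n θ θ' * ‖u‖ := by rw [dpar_comm]; rfl

lemma dpar_tendsto (n : ℕ) (θ : ℝ) :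
    Filter.Tendsto (fun θ' => dpar n θ θ') (nhds θ) (nhds 0) := by
  have hc : Continuous (fun θ' => dpar n θ θ') := by
    unfold dpar
    fun_prop
  have h0 : dpar n θ θ = 0 := by unfold dpar; simp
  have := hc.tendsto θ
  rwa [h0] at this

/-- continuity of the index along the path -/
lemma index_path_continuous (n : ℕ) : Continuous (fun θ => polyIndex (n + 2) (Vt n θ)) := by
  rw [continuous_iff_continuousAt]
  intro θ
  set φ : ℝ → ℝ := fun θ => polyIndex (n + 2) (Vt n θ) with hφ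
  have hd := dpar_tendsto n θ
  set p := 2 * (n + 2) + 1 with hp
  set q := 2 * (n + 2) + 2 with hq
  -- lower and upper functions
  have hup : ∀ θ', φ θ' ≤ (1 + dpar n θ θ') ^ p * φ θ + dpar n θ θ' * (1 + dpar n θ θ') ^ q := by
    intro θ'
    have := index_path_le n θ' θ
    rw [dpar_comm n θ' θ] at this
    exact this
  have hlow : ∀ θ', (φ θ - dpar n θ θ' * (1 + dpar n θ θ') ^ q) / (1 + dpar n θ θ') ^ p ≤ φ θ' := by
    intro θ'
    have h1 := index_path_le n θ θ'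
    have h2 := dpar_nonneg n θ θ'
    rw [div_le_iff₀ (by positivity)]
    have : φ θ ≤ (1 + dpar n θ θ') ^ p * φ θ' + dpar n θ θ' * (1 + dpar n θ θ') ^ q := h1
    linarith
  have hcu : Continuous (fun d : ℝ => (1 + d) ^ p * φ θ + d * (1 + d) ^ q) := by fun_prop
  have hlu : Filter.Tendsto (fun θ' => (1 + dpar n θ θ') ^ p * φ θ +
      dpar n θ θ' * (1 + dpar n θ θ') ^ q) (nhds θ) (nhds (φ θ)) := by
    have := (hcu.tendsto 0).comp hd
    simpa [Function.comp_def] using this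
  have hll : Filter.Tendsto (fun θ' => (φ θ - dpar n θ θ' * (1 + dpar n θ θ') ^ q) /
      (1 + dpar n θ θ') ^ p) (nhds θ) (nhds (φ θ)) := by
    have hnum : Filter.Tendsto (fun θ' => φ θ - dpar n θ θ' * (1 + dpar n θ θ') ^ q) (nhds θ)
        (nhds (φ θ)) := by
      have hc : Continuous (fun d : ℝ => φ θ - d * (1 + d) ^ q) := by fun_prop
      have := (hc.tendsto 0).comp hd
      simpa [Function.comp_def] using this
    have hden : Filter.Tendsto (fun θ' => (1 + dpar n θ θ') ^ p) (nhds θ) (nhds 1) := by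
      have hc : Continuous (fun d : ℝ => (1 + d) ^ p) := by fun_prop
      have := (hc.tendsto 0).comp hd
      simpa [Function.comp_def] using this
    have h := hnum.div hden one_ne_zero
    rw [div_one] at h
    exact h
  exact tendsto_of_tendsto_of_tendsto_of_le_of_le hll hlu hlow hup

end Path

section Endpoints

/-- Maximum principle in one coordinate. -/
lemma coord_bound {X : Type} [NormedAddCommGroup X] [NormedSpace ℂ X] {k : ℕ}
    (A : ContinuousMultilinearMap ℂ (fun _ : Fin k => X) X) (c : X →L[ℂ] ℂ)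
    (hc : ∀ u, ‖c u‖ ≤ ‖u‖) (v₀ v₁ : X) (h0 : c v₀ = 0) (h1 : c v₁ = 1)
    (hb : ∀ ζ : ℂ, ‖ζ‖ ≤ 1 → ‖v₀ + ζ • v₁‖ ≤ 1) (ζ : ℂ) (hζ : ‖ζ‖ ≤ 1) :
    ‖c (A (fun _ => v₀ + ζ • v₁))‖ ≤ polyRadius A := by
  have hdiff : Differentiable ℂ (fun ξ : ℂ => c (A (fun _ => v₀ + ξ • v₁))) := by
    have h2 : Differentiable ℂ (fun ξ : ℂ => v₀ + ξ • v₁) := by fun_prop
    exact c.differentiable.comp ((differentiable_diag A).comp h2)
  refine Complex.norm_le_of_forall_mem_frontier_norm_le (U := Metric.ball (0 : ℂ) 1)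
    Metric.isBounded_ball hdiff.diffContOnCl ?_ ?_
  · intro ξ hξ
    rw [frontier_ball (0 : ℂ) one_ne_zero, mem_sphere_zero_iff_norm] at hξ
    set y : X := v₀ + ξ • v₁ with hy
    set f : X →L[ℂ] ℂ := (starRingEnd ℂ ξ) • c with hf
    have hfv : ∀ u, ‖f u‖ = ‖c u‖ := by
      intro u
      rw [hf, smul_apply, smul_eq_mul, norm_mul, Complex.norm_conj, hξ, one_mul]
    have hfy : f y = 1 := by
      rw [hf, smul_apply, hy, map_add, map_smul, h0, h1, smul_eq_mul, smul_eq_mul, zero_add,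
        mul_one, mul_comm, Complex.mul_conj, Complex.normSq_eq_norm_sq, hξ]
      simp
    have hfn1 : ‖f‖ ≤ 1 := by
      apply ContinuousLinearMap.opNorm_le_bound _ zero_le_one
      intro u
      rw [hfv, one_mul]
      exact hc u
    have hyn : ‖y‖ = 1 := by
      apply le_antisymm (hb ξ hξ.le)
      have := hfv y
      rw [hfy, norm_one] at this
      rw [this]
      exact hc y
    have hfn : ‖f‖ = 1 := by
      apply le_antisymm hfn1
      have := f.le_opNorm y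
      rw [hfy, hyn, mul_one, norm_one] at this
      exact this
    rw [← hfv]
    exact le_polyRadius A y f hyn hfn hfy
  · rw [closure_ball (0 : ℂ) one_ne_zero]
    simpa using hζ

/-- first coordinate -/
noncomputable def pr1 (n : ℕ) (θ : ℝ) : Vt n θ →L[ℂ] ℂ :=
  LinearMap.toContinuousLinearMap ((LinearMap.fst ℂ ℂ ℂ).comp (toPair n θ).toLinearMap)

/-- second coordinate -/
noncomputable def pr2 (n : ℕ) (θ : ℝ) : Vt n θ →L[ℂ] ℂ :=
  LinearMap.toContinuousLinearMap ((LinearMap.snd ℂ ℂ ℂ).comp (toPair n θ).toLinearMap)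

lemma pr1_apply (n : ℕ) (θ : ℝ) (x : Vt n θ) : pr1 n θ x = (toPair n θ x).1 := rfl

lemma pr2_apply (n : ℕ) (θ : ℝ) (x : Vt n θ) : pr2 n θ x = (toPair n θ x).2 := rfl

lemma pr1_le (n : ℕ) (θ : ℝ) (x : Vt n θ) : ‖pr1 n θ x‖ ≤ ‖x‖ :=
  (norm_fst_le _).trans (Vt_norm_ge n θ x)

lemma pr2_le (n : ℕ) (θ : ℝ) (x : Vt n θ) : ‖pr2 n θ x‖ ≤ ‖x‖ :=
  (norm_snd_le _).trans (Vt_norm_ge n θ x)

/-- inverse of `toPair` -/
def ofPair (n : ℕ) (θ : ℝ) (z w : ℂ) : Vt n θ := (toPair n θ).symm (z, w)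

lemma toPair_ofPair (n : ℕ) (θ : ℝ) (z w : ℂ) : toPair n θ (ofPair n θ z w) = (z, w) := rfl

lemma ofPair_eq (n : ℕ) (θ : ℝ) (x : Vt n θ) :
    ofPair n θ 0 (pr2 n θ x) + pr1 n θ x • ofPair n θ 1 0 = x := by
  apply (toPair n θ).injective
  rw [map_add, map_smul, toPair_ofPair, toPair_ofPair, pr1_apply, pr2_apply]
  ext <;> simp

lemma ofPair_eq' (n : ℕ) (θ : ℝ) (x : Vt n θ) :
    ofPair n θ (pr1 n θ x) 0 + pr2 n θ x • ofPair n θ 0 1 = x := by
  apply (toPair n θ).injective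
  rw [map_add, map_smul, toPair_ofPair, toPair_ofPair, pr1_apply, pr2_apply]
  ext <;> simp

lemma norm_end (n : ℕ) (x : Vt n (Real.pi / 2)) : ‖x‖ = ‖toPair n (Real.pi / 2) x‖ := by
  rw [Vt_norm, Real.cos_pi_div_two, Real.sin_pi_div_two]
  simp

lemma index_end (n : ℕ) : polyIndex (n + 2) (Vt n (Real.pi / 2)) = 1 := by
  apply le_antisymm (index_le_one (n + 2))
  apply le_index
  intro A
  rw [one_mul]
  apply polyNorm_le
  intro x hx
  have hx1 : ‖pr1 n (Real.pi / 2) x‖ ≤ 1 := (pr1_le n _ x).trans hx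
  have hx2 : ‖pr2 n (Real.pi / 2) x‖ ≤ 1 := (pr2_le n _ x).trans hx
  have key1 : ‖pr1 n (Real.pi / 2) (A (fun _ => x))‖ ≤ polyRadius A := by
    have := coord_bound A (pr1 n (Real.pi / 2)) (pr1_le n _) (ofPair n _ 0 (pr2 n _ x))
      (ofPair n _ 1 0) rfl rfl (by
        intro ζ hζ
        rw [norm_end, map_add, map_smul, toPair_ofPair, toPair_ofPair, Prod.norm_def]
        simp only [Prod.smul_mk, Prod.mk_add_mk, smul_eq_mul, mul_one, mul_zero, zero_add,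
          add_zero]
        exact max_le hζ hx2) (pr1 n _ x) hx1
    rwa [ofPair_eq] at this
  have key2 : ‖pr2 n (Real.pi / 2) (A (fun _ => x))‖ ≤ polyRadius A := by
    have := coord_bound A (pr2 n (Real.pi / 2)) (pr2_le n _) (ofPair n _ (pr1 n _ x) 0)
      (ofPair n _ 0 1) rfl rfl (by
        intro ζ hζ
        rw [norm_end, map_add, map_smul, toPair_ofPair, toPair_ofPair, Prod.norm_def]
        simp only [Prod.smul_mk, Prod.mk_add_mk, smul_eq_mul, mul_one, mul_zero, zero_add,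
          add_zero]
        exact max_le hx1 hζ) (pr2 n _ x) hx2
    rwa [ofPair_eq'] at this
  rw [norm_end, Prod.norm_def]
  exact max_le key1 key2

/-- The elementary inequality behind the extremal example. -/
lemma flow_real {m : ℕ} (hm : m ≠ 0) (s q : ℝ) (hs : 0 ≤ s) (hq : 0 ≤ q)
    (h : ∀ b : ℝ, 1 ≤ b → b ≤ a0 m → beta m b * s + b ^ (m + 1) * q ≤ 1) (a : ℝ) (ha1 : 1 ≤ a)
    (ha2 : a ≤ a0 m) (t : ℝ) (ht : 0 ≤ t) :
    beta m a * s + a ^ (m + 1) * q + t * (a * s) ^ (m + 1) ≤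
      1 + t + ((m : ℝ) * ((m : ℝ) + 1) ^ 4 / 4) * t ^ 2 := by
  have hm' : (0 : ℝ) < m := by exact_mod_cast Nat.pos_of_ne_zero hm
  have hC : 0 ≤ ((m : ℝ) * ((m : ℝ) + 1) ^ 4 / 4) * t ^ 2 := by positivity
  by_cases has : a * s ≤ 1
  · have h1 : (a * s) ^ (m + 1) ≤ 1 := pow_le_one₀ (by positivity) has
    have h2 := h a ha1 ha2
    have h3 : t * (a * s) ^ (m + 1) ≤ t * 1 := by gcongr
    linarith
  push Not at has
  have hspos : 0 < s := by
    by_contra hcon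
    push Not at hcon
    have : s = 0 := le_antisymm hcon hs
    rw [this, mul_zero] at has
    linarith
  have hs1 : s ≤ 1 := by
    have := h 1 le_rfl (one_le_a0 m)
    rw [beta_one hm, one_mul, one_pow, one_mul] at this
    linarith
  set b : ℝ := 1 / s with hb
  have hb1 : 1 ≤ b := by rw [hb, le_div_iff₀ hspos]; linarith
  have hba : b ≤ a := by rw [hb, div_le_iff₀ hspos]; exact has.le
  have hbs : b * s = 1 := by rw [hb]; field_simp
  have hcon := h b hb1 (hba.trans ha2)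
  set ρ : ℝ := a * s with hρ
  have hρb : ρ * b = a := by rw [hρ]; linear_combination a * hbs
  have hρpos : 0 < ρ := by linarith
  -- eliminate `q`
  have hq2 : a ^ (m + 1) * q ≤ ρ ^ (m + 1) * (1 - beta m b * s) := by
    have e1 : a ^ (m + 1) = ρ ^ (m + 1) * b ^ (m + 1) := by rw [← mul_pow, hρb]
    rw [e1, mul_assoc]
    have : b ^ (m + 1) * q ≤ 1 - beta m b * s := by linarith
    gcongr
  have hsum : beta m a * s + ρ ^ (m + 1) * (1 - beta m b * s) =
      (((m : ℝ) + 1) * ρ - ρ ^ (m + 1)) / m := by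
    have e2 : ρ ^ (m + 1) * (b ^ (m + 1) * s) = a ^ (m + 1) * s := by
      rw [← mul_assoc, ← mul_pow, hρb]
    unfold beta
    field_simp
    have e3 : ρ ^ (m + 1) * (b ^ (m + 1) * s) = a ^ (m + 1) * s := e2
    have e4 : b * s = 1 := hbs
    have e5 : ρ = a * s := hρ
    clear_value ρ b
    linear_combination ((m : ℝ) + 1) * (-ρ ^ (m + 1)) * e4 - ((m : ℝ) + 1) * e5 + e3
  -- convexity estimates
  set δ : ℝ := ρ - 1 with hδ
  have hδ0 : 0 ≤ δ := by rw [hδ]; linarith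
  have hlow : 1 + ((m : ℝ) + 1) * δ + δ ^ 2 ≤ ρ ^ (m + 1) := by
    have hρ1 : ρ = 1 + δ := by rw [hδ]; ring
    have hstep : ∀ j : ℕ, 1 ≤ j → 1 + ((j : ℝ) + 1) * δ + δ ^ 2 ≤ (1 + δ) ^ (j + 1) := by
      intro j hj
      induction j, hj using Nat.le_induction with
      | base => norm_num; nlinarith
      | succ j hj ih =>
        have hj0 : (0 : ℝ) ≤ j := Nat.cast_nonneg j
        calc 1 + (((j + 1 : ℕ) : ℝ) + 1) * δ + δ ^ 2 ≤
            (1 + ((j : ℝ) + 1) * δ + δ ^ 2) * (1 + δ) := by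
              push_cast
              nlinarith [mul_nonneg hj0 (sq_nonneg δ), pow_nonneg hδ0 3]
          _ ≤ (1 + δ) ^ (j + 1) * (1 + δ) := by gcongr
          _ = (1 + δ) ^ (j + 1 + 1) := by ring
    rw [hρ1]
    exact hstep m (Nat.pos_of_ne_zero hm)
  have hupp : ρ ^ (m + 1) ≤ 1 + ((m : ℝ) + 1) ^ 2 * δ := by
    have hρa : ρ ≤ a0 m := by
      calc ρ = a * s := hρ
        _ ≤ a * 1 := by gcongr
        _ ≤ a0 m := by rw [mul_one]; exact ha2
    have hρm : ρ ^ m ≤ (m : ℝ) + 1 := by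
      rw [← a0_pow hm]
      gcongr
    have h511 := abs_pow_sub_pow_le ρ 1 (m + 1)
    have h512 : max |ρ| |(1 : ℝ)| = ρ := by
      rw [abs_of_pos hρpos, abs_one]
      exact max_eq_left has.le
    rw [h512, one_pow, ← hδ, abs_of_nonneg hδ0, Nat.add_sub_cancel] at h511
    push_cast at h511
    have h513 : δ * ((m : ℝ) + 1) * ρ ^ m ≤ δ * ((m : ℝ) + 1) * ((m : ℝ) + 1) := by gcongr
    have h514 := le_abs_self (ρ ^ (m + 1) - 1)
    nlinarith
  have hH : (((m : ℝ) + 1) * ρ - ρ ^ (m + 1)) / m ≤ 1 - δ ^ 2 / m := by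
    have e1 : 1 - δ ^ 2 / m = ((m : ℝ) - δ ^ 2) / m := by field_simp
    rw [e1, div_le_div_iff_of_pos_right hm']
    have h6 : ((m : ℝ) + 1) * ρ = ((m : ℝ) + 1) + ((m : ℝ) + 1) * δ := by rw [hδ]; ring
    rw [h6]
    linarith
  have htρ : t * ρ ^ (m + 1) ≤ t + t * (((m : ℝ) + 1) ^ 2 * δ) := by
    calc t * ρ ^ (m + 1) ≤ t * (1 + ((m : ℝ) + 1) ^ 2 * δ) := by gcongr
      _ = _ := by ring
  have hsq : t * (((m : ℝ) + 1) ^ 2 * δ) - δ ^ 2 / m ≤
      ((m : ℝ) * ((m : ℝ) + 1) ^ 4 / 4) * t ^ 2 := by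
    have h0 : 0 ≤ (δ - t * ((m : ℝ) + 1) ^ 2 * m / 2) ^ 2 / m := by positivity
    have e1 : (δ - t * ((m : ℝ) + 1) ^ 2 * m / 2) ^ 2 / m =
        δ ^ 2 / m - t * (((m : ℝ) + 1) ^ 2 * δ) + ((m : ℝ) * ((m : ℝ) + 1) ^ 4 / 4) * t ^ 2 := by
      field_simp
      ring
    rw [e1] at h0
    linarith
  linarith

lemma norm_start (n : ℕ) (x : Vt n 0) : ‖x‖ = ‖emb (n + 1) (toPair n 0 x)‖ := by
  rw [Vt_norm, Real.cos_zero, Real.sin_zero]
  simp

/-- the extremal polynomial `(z, w) ↦ (0, z ^ (n + 2))` -/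
noncomputable def extremal (n : ℕ) :
    ContinuousMultilinearMap ℂ (fun _ : Fin (n + 2) => Vt n 0) (Vt n 0) :=
  (ContinuousLinearMap.smulRight (1 : ℂ →L[ℂ] ℂ) (ofPair n 0 0 1)).compContinuousMultilinearMap
    ((ContinuousMultilinearMap.mkPiAlgebra ℂ (Fin (n + 2)) ℂ).compContinuousLinearMap
      (fun _ => pr1 n 0))

lemma extremal_apply (n : ℕ) (x : Vt n 0) :
    extremal n (fun _ => x) = (pr1 n 0 x) ^ (n + 2) • ofPair n 0 0 1 := by
  simp [extremal]

lemma extremal_norm (n : ℕ) : a0 (n + 1) ^ (n + 2) ≤ polyNorm (extremal n) := by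
  have hm : n + 1 ≠ 0 := Nat.succ_ne_zero n
  have h1 : ‖ofPair n 0 1 0‖ ≤ 1 := by
    rw [norm_start, toPair_ofPair]
    apply emb_le hm _ _ zero_le_one
    intro a ha1 ha2
    have := beta_le_one hm a ha1
    simpa using this
  have h2 := le_polyNorm (extremal n) (ofPair n 0 1 0) h1
  have h3 : pr1 n 0 (ofPair n 0 1 0) = 1 := rfl
  rw [extremal_apply, h3, one_pow, one_smul, norm_start, toPair_ofPair] at h2
  have h4 := form_le hm (0, 1) (a0 (n + 1)) (one_le_a0 _) le_rfl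
  simp only [norm_zero, norm_one, mul_zero, zero_add, mul_one] at h4
  exact h4.trans h2

lemma extremal_radius (n : ℕ) : polyRadius (extremal n) ≤ 1 := by
  have hm : n + 1 ≠ 0 := Nat.succ_ne_zero n
  apply polyRadius_le _ _ zero_le_one
  intro x f hx hf hfx
  set v := f (extremal n (fun _ => x)) with hv
  by_cases hv0 : v = 0
  · rw [hv0, norm_zero]; exact zero_le_one
  have hvn : (‖v‖ : ℂ) ≠ 0 := by exact_mod_cast norm_ne_zero_iff.2 hv0
  -- a unimodular factor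
  set μ : ℂ := (starRingEnd ℂ v) / ‖v‖ with hμ
  have hμn : ‖μ‖ = 1 := by
    rw [hμ, norm_div, Complex.norm_conj, Complex.norm_real, norm_norm,
      div_self (norm_ne_zero_iff.2 hv0)]
  have hμv : μ * v = ‖v‖ := by
    rw [hμ]
    field_simp
    rw [mul_comm, Complex.mul_conj, Complex.normSq_eq_norm_sq]
    push_cast
    ring
  set C : ℝ := ((n + 1 : ℕ) : ℝ) * (((n + 1 : ℕ) : ℝ) + 1) ^ 4 / 4 with hC
  have hflow : ∀ t : ℝ, 0 ≤ t → ‖x + ((t : ℂ) * μ) • extremal n (fun _ => x)‖ ≤ 1 + t + C * t ^ 2 := by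
    intro t ht
    have hxn : ‖emb (n + 1) (toPair n 0 x)‖ = 1 := by rw [← norm_start, hx]
    rw [norm_start]
    have hC0 : 0 ≤ C := by rw [hC]; positivity
    apply emb_le hm _ _ (by positivity)
    intro a ha1 ha2
    have e1 : (toPair n 0 (x + ((t : ℂ) * μ) • extremal n (fun _ => x))).1 = (toPair n 0 x).1 := by
      rw [extremal_apply, map_add, map_smul, map_smul, toPair_ofPair]
      simp
    have e2 : (toPair n 0 (x + ((t : ℂ) * μ) • extremal n (fun _ => x))).2 =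
        (toPair n 0 x).2 + ((t : ℂ) * μ) * (toPair n 0 x).1 ^ (n + 2) := by
      rw [extremal_apply, map_add, map_smul, map_smul, toPair_ofPair, pr1_apply]
      simp
    rw [e1, e2]
    set s := ‖(toPair n 0 x).1‖ with hs
    set q := ‖(toPair n 0 x).2‖ with hq
    have hfr := flow_real hm s q (norm_nonneg _) (norm_nonneg _) (fun b hb1 hb2 => by
      have := form_le hm (toPair n 0 x) b hb1 hb2
      rwa [hxn] at this) a ha1 ha2 t ht
    have h5 : ‖(toPair n 0 x).2 + ((t : ℂ) * μ) * (toPair n 0 x).1 ^ (n + 2)‖ ≤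
        q + t * s ^ (n + 2) := by
      calc _ ≤ ‖(toPair n 0 x).2‖ + ‖((t : ℂ) * μ) * (toPair n 0 x).1 ^ (n + 2)‖ :=
            norm_add_le _ _
        _ = q + t * s ^ (n + 2) := by
            rw [norm_mul, norm_mul, norm_pow, Complex.norm_real, Real.norm_of_nonneg ht, hμn,
              mul_one]
    have ha0 : 0 ≤ a := by linarith
    calc beta (n + 1) a * s + a ^ (n + 1 + 1) *
          ‖(toPair n 0 x).2 + ((t : ℂ) * μ) * (toPair n 0 x).1 ^ (n + 2)‖
        ≤ beta (n + 1) a * s + a ^ (n + 1 + 1) * (q + t * s ^ (n + 2)) := by gcongr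
      _ = beta (n + 1) a * s + a ^ (n + 1 + 1) * q + t * (a * s) ^ (n + 1 + 1) := by
          rw [mul_pow]; ring
      _ ≤ 1 + t + C * t ^ 2 := hfr
  have hbound : ∀ t : ℝ, 0 < t → ‖v‖ ≤ 1 + C * t := by
    intro t ht
    have h1 := hflow t ht.le
    have h2 : ‖f (x + ((t : ℂ) * μ) • extremal n (fun _ => x))‖ ≤ 1 + t + C * t ^ 2 := by
      calc _ ≤ ‖f‖ * ‖x + ((t : ℂ) * μ) • extremal n (fun _ => x)‖ := f.le_opNorm _
        _ ≤ 1 + t + C * t ^ 2 := by rw [hf, one_mul]; exact h1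
    have h3 : f (x + ((t : ℂ) * μ) • extremal n (fun _ => x)) = ((1 + t * ‖v‖ : ℝ) : ℂ) := by
      rw [map_add, map_smul, hfx, smul_eq_mul, ← hv, mul_assoc, hμv]
      push_cast
      ring
    rw [h3, Complex.norm_real, Real.norm_of_nonneg (by positivity)] at h2
    have h4 : t * ‖v‖ ≤ t * (1 + C * t) := by nlinarith
    exact le_of_mul_le_mul_left h4 ht
  have htend : Filter.Tendsto (fun t : ℝ => 1 + C * t) (nhdsWithin 0 (Set.Ioi 0)) (nhds 1) := by
    have hc : Continuous (fun t : ℝ => 1 + C * t) := by fun_prop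
    have := (hc.tendsto 0).mono_left (nhdsWithin_le_nhds (s := Set.Ioi 0))
    simpa using this
  apply ge_of_tendsto htend
  filter_upwards [self_mem_nhdsWithin] with t ht
  exact hbound t ht

end Endpoints

lemma value_pow {n : ℕ} :
    (((n + 2 : ℕ) : ℝ) ^ (((n + 2 : ℕ) : ℝ) / (1 - ((n + 2 : ℕ) : ℝ)))) =
      (a0 (n + 1) ^ (n + 2))⁻¹ := by
  have h1 : (0 : ℝ) < ((n + 1 : ℕ) : ℝ) := by positivity
  have h2 : (((n + 1 : ℕ) : ℝ) + 1) = ((n + 2 : ℕ) : ℝ) := by push_cast; ring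
  unfold a0
  rw [h2, ← Real.rpow_natCast, ← Real.rpow_mul (by positivity), ← Real.rpow_neg (by positivity)]
  congr 1
  have h3 : (1 : ℝ) - ((n + 2 : ℕ) : ℝ) = -((n + 1 : ℕ) : ℝ) := by push_cast; ring
  rw [h3]
  field_simp

/-- For every `k ≥ 2` the set of all values of the `k`-th polynomial numerical index on nonzero
complex Banach spaces is the interval `[k ^ (k / (1 - k)), 1]`. -/
theorem result (k : ℕ) (hk : 2 ≤ k) :
    complexRange k = Set.Icc ((k : ℝ) ^ ((k : ℝ) / (1 - (k : ℝ)))) 1 := by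
  obtain ⟨n, rfl⟩ : ∃ n, k = n + 2 := ⟨k - 2, by omega⟩
  have hm : n + 1 ≠ 0 := Nat.succ_ne_zero n
  have ha := one_le_a0 (n + 1)
  have hapos : 0 < a0 (n + 1) ^ (n + 2) := by positivity
  rw [value_pow]
  have hlower : ∀ (X : Type) [NormedAddCommGroup X] [NormedSpace ℂ X] [Nontrivial X],
      (a0 (n + 1) ^ (n + 2))⁻¹ ≤ polyIndex (n + 2) X := by
    intro X _ _ _
    apply index_ge (n := n + 1) hm _ (by positivity)
    rw [inv_pow, ← pow_mul, mul_comm (n + 2), pow_mul, a0_pow hm]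
    exact inv_mul_cancel₀ (by positivity)
  ext r
  constructor
  · rintro ⟨X, i1, i2, _, h3, rfl⟩
    exact ⟨hlower X, index_le_one (n + 2)⟩
  · rintro ⟨hr1, hr2⟩
    have hstart : polyIndex (n + 2) (Vt n 0) ≤ (a0 (n + 1) ^ (n + 2))⁻¹ := by
      have h1 := index_mul_le (extremal n)
      have h2 := extremal_norm n
      have h3 := extremal_radius n
      have h4 := index_nonneg (X := Vt n 0) (k := n + 2)
      rw [← one_div, le_div_iff₀ hapos]
      calc polyIndex (n + 2) (Vt n 0) * a0 (n + 1) ^ (n + 2) ≤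
            polyIndex (n + 2) (Vt n 0) * polyNorm (extremal n) := by gcongr
        _ ≤ 1 := h1.trans h3
    have hivt := intermediate_value_Icc (show (0 : ℝ) ≤ Real.pi / 2 by positivity)
      (index_path_continuous n).continuousOn
    obtain ⟨θ, -, hθ⟩ := hivt ⟨hstart.trans hr1, by rw [index_end]; exact hr2⟩
    exact ⟨Vt n θ, inferInstance, inferInstance, FiniteDimensional.complete ℂ _, inferInstance,
      hθ.symm⟩

end Pool.Agent.Results.MP_046d9d_an.ComplexRange
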